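import Pool.Agent.U192.TD.Uni

/-!
Sections of multiples of a divisor with multiplicities `0` and `1` are logarithmic forms.
-/

set_option autoImplicit false
set_option linter.overlappingInstances false
set_option linter.unusedSectionVars false

open FF Pool.Agent.W602.GT Pool.Agent.W603.LV Pool.Agent.W619.PQ Pool.Agent.Y172
open Pool.Agent.Y174 (PairSec PairKod PairNum)

namespace Pool.Agent.U192.TF

/-- sections of multiples of a pair with a reduced boundary are logarithmic forms -/
theorem logSec_of_pair {K : Type} [Field K] [Algebra ℂ K] [Algebra.EssFiniteType ℂ K] {n m j : ℕ}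
    (hn : Algebra.trdeg ℂ K = n) {Bd : Place ℂ K → Prop} [DecidablePred Bd]
    {ω : (Fin n → Derivation ℂ K K) → K}
    (hω : PairSec ℂ K n (fun P => if Bd P then 1 else 0) {1} m j ω) : LogSec ℂ K n m Bd ω := by
  classical
  refine ⟨hω.1, fun P hP G hG => ?_, fun P hP hB G hG => ?_⟩
  · obtain ⟨y, E, i0, hl⟩ := exists_loc hn hP
    have h1 : Ge P (-(m : ℤ)) (ω E) := by
      rcases hω.2 P hP E hl.pres with h0 | ⟨s, hs, hs0, hle⟩
      · exact Or.inl h0
      · right
        rw [Finset.mem_singleton.1 hs, P.ord_one, Int.cast_zero, mul_zero, zero_sub] at hle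
        have h2 : (-(m : ℝ)) ≤ P.ord (ω E) := by
          refine le_trans ?_ hle
          have h3 : (0 : ℝ) ≤ m := Nat.cast_nonneg m
          beta_reduce
          split_ifs <;> linarith
        exact_mod_cast h2
    have h2 : Ge P 1 (Matrix.of fun i j => G i (y j) : Matrix (Fin n) (Fin n) K).det := by
      have h3 := Pool.Agent.U192.PB.ge_det_col P
        (Matrix.of fun i j => G i (y j) : Matrix (Fin n) (Fin n) K)
        (fun j => if j = i0 then 1 else 0) (fun i j => by
        rw [Matrix.of_apply]
        have h4 : Ge P 0 (G i (y j) / y j) := hG i _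
        have h5 : y j ≠ 0 := by
          intro h0
          have h6 := hl.bas.1.transcendental j
          rw [h0] at h6
          exact h6 isAlgebraic_zero
        have h6 : Ge P (if j = i0 then 1 else 0) (y j) := by
          by_cases hj : j = i0
          · rw [if_pos hj, hj]
            exact Or.inr hl.unif.ge
          · rw [if_neg hj]
            exact hl.reg j
        have h7 := h4.mul h6
        rwa [div_mul_cancel₀ _ h5, zero_add] at h7)
      rw [Finset.sum_ite_eq' Finset.univ i0, if_pos (Finset.mem_univ i0)] at h3
      exact h3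
    have h3 := (h2.pow m).mul h1
    rw [mul_one, add_neg_cancel] at h3
    rw [pluri_coord hl.bas hl.dual hω.1 G]
    exact h3
  · rcases hω.2 P hP G hG with h0 | ⟨s, hs, hs0, hle⟩
    · exact Or.inl h0
    · right
      beta_reduce at hle
      rw [Finset.mem_singleton.1 hs, P.ord_one, Int.cast_zero, mul_zero, if_neg hB, mul_zero,
        sub_zero] at hle
      exact_mod_cast hle

/-- the logarithmic Kodaira dimension of a pair with a reduced boundary -/
theorem kodGe_of_pair_log {K : Type} [Field K] [Algebra ℂ K] [Algebra.EssFiniteType ℂ K] {n a : ℕ}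
    (hn : Algebra.trdeg ℂ K = n) {Bd : Place ℂ K → Prop} [DecidablePred Bd]
    (h : PairKod ℂ K n (fun P => if Bd P then 1 else 0) a) : KodGe ℂ K n Bd a := by
  classical
  obtain ⟨m, hm, ω, hω, D, hD, hind⟩ := h
  exact ⟨m, hm, ω, fun l => logSec_of_pair hn (hω l), D, hD 0, hind⟩

end Pool.Agent.U192.TF
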