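import Pool.Agent.N145.SX.Flat
import Pool.Agent.W619.TW.NDefs

/-!
The numerical dimension of the curves of genus at most one.
-/

set_option autoImplicit false
set_option linter.overlappingInstances false
set_option linter.unusedSectionVars false

open FF Module Pool.Agent.W602.GT Pool.Agent.W603.LV Pool.Agent.W619.PQ
open Pool.Agent.W619.TW (NumLe HasIndep IsSec Dom)
open Pool.Agent.N145.SX (GLO flat_of_glo)

namespace Pool.Agent.U192.TF

section

variable {Λ F : Type} [Field Λ] [Field F] [Algebra Λ F] [CharZero Λ] [IsAlgClosed Λ] [IsFF Λ F]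

/-- the dimension of a Riemann-Roch space -/
theorem ell_bound (E : Place Λ F →₀ ℤ) {c : ℤ} (hc : ddeg E ≤ c) (h0 : 0 ≤ c) : ell E ≤ c + 1 := by
  classical
  by_cases h : ddeg E < 0
  · unfold ell
    rw [LL_eq_bot h, finrank_bot]
    push_cast
    linarith
  · obtain ⟨P, -⟩ := exists_place (k := Λ) (K := F)
    have h1 : E - Finsupp.single P (ddeg E + 1) ≤ E := by
      intro Q
      rw [Finsupp.sub_apply]
      have h2 : 0 ≤ (Finsupp.single P (ddeg E + 1)) Q := by
        rw [Finsupp.single_apply]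
        split_ifs
        · linarith
        · exact le_rfl
      linarith
    have h2 : ddeg (E - Finsupp.single P (ddeg E + 1)) = -1 := by
      rw [ddeg_sub, ddeg_single, deg_one]
      push_cast
      ring
    have h3 := ell_le h1
    have h4 : ell (E - Finsupp.single P (ddeg E + 1)) = 0 := by
      unfold ell
      rw [LL_eq_bot (by rw [h2]; norm_num), finrank_bot]
      rfl
    rw [h4, h2] at h3
    linarith

theorem canDeg_le_of_glo (h : GLO Λ F) : canDeg Λ F ≤ 0 := by
  rcases flat_of_glo h with ⟨t, ht⟩ | ⟨D, hD, hvo⟩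
  · rw [canDeg_rational ht]
    norm_num
  · rw [canDeg_eq hD, finsum_eq_zero_of_forall_eq_zero hvo, neg_zero]

theorem pluri_smul' {m : ℕ} {ω : (Fin 1 → Derivation Λ F F) → F} (hω : IsPluri m ω) (u : F)
    (D : Derivation Λ F F) : ω (fun _ => u • D) = u ^ m * ω (fun _ => D) := by
  have h1 := hω (Matrix.of fun _ _ => u) (fun _ => D)
  have h2 : (fun i : Fin 1 => ∑ j : Fin 1, (Matrix.of fun _ _ => u : Matrix (Fin 1) (Fin 1) F) i j •
      D) = fun _ => u • D := by
    funext i
    simp
  rw [h2, Matrix.det_unique] at h1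
  exact h1

/-- **The numerical dimension of the curves of genus at most one.** -/
theorem numLe_glo (h : GLO Λ F) : NumLe Λ F 1 (fun _ => False) 0 := by
  classical
  intro S
  obtain ⟨D, hDdef⟩ : ∃ D, D = der Λ F := ⟨_, rfl⟩
  have hD : D ≠ 0 := by
    rw [hDdef]
    exact der_ne
  obtain ⟨V, hV⟩ : ∃ V : Place Λ F →₀ ℤ, ∀ P, V P = vo P D :=
    ⟨Finsupp.ofSupportFinite (fun P => vo P D) (vo_finite hD), fun _ => rfl⟩
  have hVd : 0 ≤ ddeg V := by
    have h1 : ddeg V = - canDeg Λ F := by
      rw [← canDeg_finset hD V.support (fun P hP => by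
        rw [Finsupp.mem_support_iff, hV]
        exact hP)]
      unfold ddeg Finsupp.sum
      refine Finset.sum_congr rfl fun P _ => ?_
      change V P * (P.deg : ℤ) = vo P D
      rw [deg_one, hV]
      simp
    have h2 := canDeg_le_of_glo h
    linarith
  obtain ⟨A, hA⟩ : ∃ A : Place Λ F →₀ ℤ, A = ∑ s ∈ S, polar (k := Λ) s := ⟨_, rfl⟩
  have hAs : ∀ s ∈ S, ∀ P : Place Λ F, -P.ord s ≤ A P := by
    intro s hs P
    have h1 : polar (k := Λ) s ≤ A := by
      rw [hA]
      exact Finset.single_le_sum (f := fun s => polar (k := Λ) s) (fun i _ => polar_nonneg i) hs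
    have h2 := h1 P
    rw [polar_apply] at h2
    exact (le_max_left _ _).trans h2
  have hA0 : 0 ≤ ddeg A := by
    refine ddeg_nonneg ?_
    rw [hA]
    exact Finset.sum_nonneg fun s _ => polar_nonneg s
  refine ⟨(ddeg A + 1).toNat, fun m N hm hN => ?_⟩
  obtain ⟨ω, hli, hsec⟩ := hN
  obtain ⟨f, hf⟩ : ∃ f : Fin N → F, ∀ l, f l = ω l (fun _ => D) := ⟨_, fun _ => rfl⟩
  have hmem : ∀ l, f l ∈ LL (A - (m : ℤ) • V) := by
    intro l
    rw [mem_LL]
    by_cases hf0 : f l = 0
    · exact Or.inl hf0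
    right
    intro P
    have hπ := ord_unif P
    have h0 := der_pi_ne_zero hD P hπ
    obtain ⟨D1, hD1⟩ : ∃ D1, D1 = (D (unif P))⁻¹ • D := ⟨_, rfl⟩
    have h1 : D1 (unif P) = 1 := by
      rw [hD1]
      simp [h0]
    have h2 : D = D (unif P) • D1 := by
      rw [hD1, smul_smul, mul_inv_cancel₀ h0, one_smul]
    have h3 : f l = D (unif P) ^ m * ω l (fun _ => D1) := by
      rw [hf]
      conv_lhs => rw [h2]
      exact pluri_smul' (hsec l).1 _ _
    have hdiv : IsDivisorial P 1 := by
      have : IsEmpty (Fin (1 - 1)) := inferInstanceAs (IsEmpty (Fin 0))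
      refine ⟨fun i => i.elim0, fun G hG => ?_⟩
      obtain ⟨c, hc⟩ : ∃ c, G = MvPolynomial.C c := ⟨_, MvPolynomial.eq_C_of_isEmpty G⟩
      have hc0 : c ≠ 0 := by
        rintro rfl
        apply hG
        rw [hc, map_zero]
      rw [hc, MvPolynomial.aeval_C]
      exact ⟨by rwa [Ne, map_eq_zero], P.ord_const hc0⟩
    have h4 := (hsec l).2.1 P hdiv id (fun _ => D1) (fun _ f hf => der_reg P hπ D1 h1 hf)
    have hne1 : D (unif P) ^ m ≠ 0 := pow_ne_zero _ h0
    have hne2 : ω l (fun _ => D1) ≠ 0 := by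
      intro h5
      apply hf0
      rw [h3, h5, mul_zero]
    rcases h4 with h4 | ⟨s, hs, hs0, h4⟩
    · exact absurd h4 hne2
    have h5 : P.ord (D (unif P)) = vo P D := rfl
    have h6 := hAs s hs P
    rw [Finsupp.sub_apply, Finsupp.smul_apply, hV, h3, P.ord_mul hne1 hne2, P.ord_pow, h5,
      smul_eq_mul]
    push_cast at h4
    linarith
  have hli' : LinearIndependent Λ (fun l => (⟨f l, hmem l⟩ : LL (A - (m : ℤ) • V))) := by
    rw [Fintype.linearIndependent_iff] at hli ⊢
    intro c hc
    refine hli c ?_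
    have h1 : ∑ l, c l • f l = 0 := by
      have h2 := congrArg Subtype.val hc
      simpa using h2
    funext G
    rw [Finset.sum_apply]
    obtain ⟨u, hu⟩ := der_smul (D' := G 0) hD
    have h3 : G = fun _ => u • D := by
      funext i
      rw [Subsingleton.elim i 0, hu]
    have h4 : ∀ l, (c l • ω l) G = u ^ m * (c l • f l) := by
      intro l
      rw [Pi.smul_apply, h3, pluri_smul' (hsec l).1, hf, Algebra.smul_def, Algebra.smul_def]
      ring
    rw [Finset.sum_congr rfl fun l _ => h4 l, ← Finset.mul_sum, h1, mul_zero]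
    rfl
  have h1 := hli'.fintype_card_le_finrank
  rw [Fintype.card_fin] at h1
  have h2 : ell (A - (m : ℤ) • V) ≤ ddeg A + 1 := by
    refine ell_bound _ ?_ hA0
    have h3 : ddeg ((m : ℤ) • V) = m * ddeg V := by
      have h4 := ddeg_nsmul m V
      rw [← h4]
      congr 1
    rw [ddeg_sub, h3]
    have h4 : (0 : ℤ) ≤ m * ddeg V := mul_nonneg (Int.natCast_nonneg m) hVd
    linarith
  unfold ell at h2
  rw [pow_zero, mul_one]
  have h3 : (N : ℤ) ≤ ddeg A + 1 := by
    refine le_trans ?_ h2
    exact_mod_cast h1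
  have h4 := Int.self_le_toNat (ddeg A + 1)
  exact_mod_cast h3.trans h4

end

end Pool.Agent.U192.TF
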