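import Pool.Agent.U192.TF.Main
import Pool.Agent.U192.TF.Kod
import Pool.Agent.N145.SX.All

/-!
Images of the products with curves.
-/

set_option autoImplicit false
set_option linter.overlappingInstances false
set_option linter.unusedSectionVars false
set_option maxHeartbeats 4000000
set_option synthInstance.maxHeartbeats 400000

open FF Pool.Agent.W602.GT Pool.Agent.W603.LV Pool.Agent.W619.PQ Pool.Agent.Y172
open Pool.Agent.N145.PL (HL bd)
open Pool.Agent.N145.SX (BdX zz)
open Pool.Agent.Y184.NT (trForm trForm_pluri)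
open Pool.Agent.W619.PL (IsA1Uniruled)
open Pool.Agent.Y174 (PairSec PairKod PairNum)
open Pool.Agent.W619.TW (HasIndep)

namespace Pool.Agent.U192.TF

open Pool.Agent.U192.NM (pow_form pow_form_pluri)
open Pool.Agent.U192.PE (RegS kod_of_regS indep_of_norm)

/-- a subfield which generates a finite extension spans it -/
theorem span_subfield {M N : Type} [Field M] [Field N] [Algebra M N] [FiniteDimensional M N]
    (S : Subfield N) (h : IntermediateField.adjoin M (S : Set N) = ⊤) :
    ⊤ ≤ Submodule.span M (S : Set N) := by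
  have h2 := IntermediateField.adjoin_toSubalgebra_of_isAlgebraic (F := M) (E := N)
    (S := (S : Set N)) fun x _ => Algebra.IsAlgebraic.isAlgebraic x
  rw [h, IntermediateField.top_toSubalgebra] at h2
  have h3 := Algebra.adjoin_eq_span M (S : Set N)
  rw [← h2, Algebra.top_toSubmodule] at h3
  have h4 : (Submonoid.closure (S : Set N) : Set N) = (S : Set N) := by
    have : (Submonoid.closure (S : Set N)) = S.toSubmonoid := by
      apply le_antisymm
      · rw [Submonoid.closure_le]; exact fun z hz => hz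
      · exact fun z hz => Submonoid.subset_closure hz
    rw [this]
    rfl
  rw [h4] at h3
  exact h3.le

section

variable {K : Type} [Field K] [Algebra ℂ K] [Algebra.EssFiniteType ℂ K] {d : ℕ}
  {E E1 C : IntermediateField ℂ K} [IsFF ℂ C]
  {L : Type} [Field L] [Algebra ℂ L] [Algebra L K] [IsScalarTower ℂ L K] [FiniteDimensional L K]

/-- **Images of the products with curves.** -/
theorem main (hle : E ≤ E1) (hsup : E1 ⊔ C = ⊤) (hE : Algebra.trdeg ℂ E = d)
    (hE1 : Algebra.trdeg ℂ E1 = d) (hK : Algebra.trdeg ℂ K = (d + 1 : ℕ)) {T : Finset E}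
    (hT : ∀ z ∈ IntermediateField.adjoin L (E : Set K),
      z ∈ Submodule.span L {z : K | ∃ t : E, (t = 1 ∨ t ∈ T) ∧ (t : K) = z})
    {BX : Place ℂ E → Prop} {B : Set (Place ℂ C)} (hBf : B.Finite) {BL : Place ℂ L → Prop}
    [DecidablePred BX]
    (hBL : ∀ (P : Place ℂ L) (Q : Place ℂ K) (e : ℕ), Over Q P e → (BL P ↔ BdX BX B Q))
    :
    IsA1Uniruled ℂ L (d + 1) BL ∨
    ((∀ m a : ℕ, 1 ≤ m → ∀ θ : Fin (a + 1) → (Fin d → Derivation ℂ E E) → E,
      (∀ l, IsPluri m (θ l)) →
      (∀ l, ∀ v : Place ℂ E, Divisorial d v → ∀ G : Fin d → Derivation ℂ E E,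
        (∀ i, DerReg v (G i)) → θ l G = 0 ∨ ∀ t : E, (t = 1 ∨ t ∈ T) → t ≠ 0 →
          (if BX v then -(m : ℤ) else 0) ≤ v.ord (θ l G) + 2 * m * v.ord t) →
      ∀ G0 : Fin d → Derivation ℂ E E, θ 0 G0 ≠ 0 →
      (AlgebraicIndependent ℂ fun j : Fin a => θ j.succ G0 / θ 0 G0) →
      KodGe ℂ L (d + 1) BL a) ∧
    ∀ m n : ℕ, ∀ θ : Fin n → (Fin d → Derivation ℂ E E) → E, (∀ l, IsPluri m (θ l)) →
      (∀ l, ∀ v : Place ℂ E, Divisorial d v → ∀ G : Fin d → Derivation ℂ E E,
        (∀ i, DerReg v (G i)) → θ l G = 0 ∨ ∀ t : E, (t = 1 ∨ t ∈ T) → t ≠ 0 →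
          (if BX v then -(m : ℤ) else 0) ≤ v.ord (θ l G) + 2 * m * v.ord t) →
      LinearIndependent ℂ θ →
      HasIndep ℂ L (d + 1) n (LogSec ℂ L (d + 1)
        (m * Module.finrank L (IntermediateField.adjoin L (E1 : Set K))) BL)) := by
  classical
  by_cases hA : IsA1Uniruled ℂ L (d + 1) BL
  · exact Or.inl hA
  right
  have hL : Algebra.trdeg ℂ L = (d + 1 : ℕ) := Pool.Agent.Y184.NT.trdeg_below (K := K) hK
  have hessL : Algebra.EssFiniteType ℂ L := Pool.Agent.TH466.QG.ess_below (K := K)
  have hessE : Algebra.EssFiniteType ℂ E := Pool.Agent.N999.SX.ess_any E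
  have hessE1 : Algebra.EssFiniteType ℂ E1 := Pool.Agent.N999.SX.ess_any E1
  -- the fields
  let iEE1 : Algebra E E1 := (IntermediateField.inclusion hle).toRingHom.toAlgebra
  have tE1 : IsScalarTower ℂ E E1 := IsScalarTower.of_algebraMap_eq fun _ => rfl
  let N := IntermediateField.adjoin L (E1 : Set K)
  let M := IntermediateField.adjoin L (E : Set K)
  have hMN : M ≤ N := IntermediateField.adjoin.mono L _ _ hle
  let iMN : Algebra M N := (IntermediateField.inclusion hMN).toRingHom.toAlgebra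
  let iEM : Algebra E M := ({ toFun := fun u => ⟨(u : K), IntermediateField.subset_adjoin L _ u.2⟩
                              map_one' := rfl
                              map_mul' := fun _ _ => rfl
                              map_zero' := rfl
                              map_add' := fun _ _ => rfl } : E →+* M).toAlgebra
  let iEN : Algebra E N := ({ toFun := fun u => ⟨(u : K), hMN
                                (IntermediateField.subset_adjoin L _ u.2)⟩
                              map_one' := rfl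
                              map_mul' := fun _ _ => rfl
                              map_zero' := rfl
                              map_add' := fun _ _ => rfl } : E →+* N).toAlgebra
  have s1 : IsScalarTower ℂ M N := IsScalarTower.of_algebraMap_eq fun _ => rfl
  have s2 : IsScalarTower ℂ N K := IsScalarTower.of_algebraMap_eq fun _ => rfl
  have s3 : IsScalarTower L M N := IsScalarTower.of_algebraMap_eq fun _ => rfl
  have s4 : IsScalarTower ℂ E M := IsScalarTower.of_algebraMap_eq fun _ => rfl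
  have s5 : IsScalarTower ℂ E N := IsScalarTower.of_algebraMap_eq fun _ => rfl
  have s6 : IsScalarTower E M N := IsScalarTower.of_algebraMap_eq fun _ => rfl
  have s7 : IsScalarTower E N K := IsScalarTower.of_algebraMap_eq fun _ => rfl
  have hfMN : FiniteDimensional M N := FiniteDimensional.right L M N
  have hessN : Algebra.EssFiniteType ℂ N := Pool.Agent.TH466.QG.ess_below (K := K)
  -- the coordinates on the variety
  obtain ⟨x, Ex, hx, hEx⟩ := exists_crd hE
  have halgE : Algebra.IsAlgebraic E E1 := by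
    rw [← trdeg_eq_zero_iff]
    have h1 := _root_.trdeg_add_eq ℂ E (A := E1)
    rw [hE1, hE] at h1
    have h2 : (d : Cardinal) + Algebra.trdeg E E1 = d + 0 := by rw [h1, add_zero]
    exact Cardinal.eq_of_add_eq_add_left h2 (Cardinal.natCast_lt_aleph0)
  have hx1 : IsTranscendenceBasis ℂ (fun j => algebraMap E E1 (x j)) := hx.algebraMap_comp
  -- the coordinate on the curve
  obtain ⟨t, ht, htB⟩ := Pool.Agent.N145.PL.exists_xB hBf
  obtain ⟨D0, hD0⟩ := Pool.Agent.N145.PC.exists_D ht
  -- the frames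
  obtain ⟨y, G, hy, hG⟩ := exists_crd hL
  have hnN : Algebra.trdeg ℂ N = (d + 1 : ℕ) := Pool.Agent.Y172.trdeg_up (K := L) hL
  choose GN hGN using fun i => exists_lift (L := N) hL (G i)
  choose G' hG' using fun i => exists_lift (L := K) hnN (GN i)
  have hGK : ∀ i f, G' i (algebraMap L K f) = algebraMap L K (G i f) := by
    intro i f
    rw [IsScalarTower.algebraMap_apply L N K, hG', hGN, ← IsScalarTower.algebraMap_apply L N K]
  have hyN : IsTranscendenceBasis ℂ (fun j => algebraMap L N (y j)) := hy.algebraMap_comp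
  have hyK : IsTranscendenceBasis ℂ (fun j => algebraMap L K (y j)) := hy.algebraMap_comp
  have hGNd := lift_dual hG hGN
  have hGKd := lift_dual hG hGK
  obtain ⟨h, hdef⟩ : ∃ h, h = (Matrix.of fun i j => G' i (zz K x t j) :
    Matrix (Fin (d + 1)) (Fin (d + 1)) K).det := ⟨_, rfl⟩
  have hval : ∀ g : K, trForm (zz K x t) g G' = h * g := by
    intro g
    rw [trForm, hdef]
  -- the trace is not zero
  obtain ⟨BX1, hBX1⟩ : ∃ BX1 : Place ℂ E1 → Prop, ∀ P1, BX1 P1 ↔ ∃ (P : Place ℂ E) (e : ℕ),
    BX P ∧ Over P1 P e := ⟨_, fun _ => Iff.rfl⟩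
  have hBd : ∀ (P : Place ℂ L) (Q : Place ℂ K) (e : ℕ), Over Q P e → BL P → BdX BX1 B Q := by
    intro P Q e hQ hP
    rcases (hBL P Q e hQ).1 hP with ⟨v, r, hv, hr⟩ | hp
    · left
      obtain ⟨z, hz⟩ : ∃ z : E1, Q.ord (algebraMap E1 K z) ≠ 0 := by
        obtain ⟨π, -, hπ⟩ := v.surj
        refine ⟨algebraMap E E1 π, ?_⟩
        have h1 : algebraMap E1 K (algebraMap E E1 π) = algebraMap E K π := rfl
        rw [h1, hr.2, hπ, mul_one]
        exact_mod_cast hr.1.ne'
      obtain ⟨r1, P1, hP1⟩ := exists_over (K := E1) Q ⟨z, hz⟩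
      obtain ⟨v', r', hv'⟩ := exists_below (k := ℂ) (K := E) (L := E1) P1
      have tEK : IsScalarTower E E1 K := IsScalarTower.of_algebraMap_eq fun _ => rfl
      have h2 := over_trans hP1 hv'
      obtain ⟨h3, h4⟩ := Pool.Agent.Y172.over_unique' h2 hr
      exact ⟨P1, r1, (hBX1 P1).2 ⟨v', r', by rw [h3]; exact hv, hv'⟩, hP1⟩
    · exact Or.inr hp
  obtain ⟨φ, hφ, hne⟩ : ∃ φ ∈ HL D0 B, Algebra.trace N K (h * (φ : K)) ≠ 0 := by
    by_contra hcon
    push Not at hcon
    refine hA (Pool.Agent.N145.SX.erase K d E1 C hsup hE1 hK _ hx1 t ht D0 hD0 BX1 B htB L BL hBd h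
      (fun M' g D D' hD => ?_) hcon)
    have h1 := Pool.Agent.Y172.pluri_coord hyK hGKd (trForm_pluri (zz K x t) g) D'
    rw [hval, pow_one] at h1
    refine ⟨(Matrix.of fun i j => D i (algebraMap L M' (y j)) :
      Matrix (Fin (d + 1)) (Fin (d + 1)) M').det, ?_⟩
    refine h1.trans ?_
    rw [RingHom.map_det]
    congr 2
    ext i j
    rw [RingHom.mapMatrix_apply, Matrix.map_apply, Matrix.of_apply, Matrix.of_apply]
    rw [← hD]
    rfl
  obtain ⟨τ, hτ⟩ : ∃ τ : N, τ = tr x t φ G' := ⟨_, rfl⟩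
  have hτ0 : τ ≠ 0 := by
    have h1 : τ = Algebra.trace N K (h * (φ : K)) := by
      rw [hτ, ← hval]
      rfl
    rw [h1]
    exact hne
  -- the bases
  obtain ⟨S0, hS0⟩ : ∃ S0 : Set M, S0 = {z | ∃ t : E, (t = 1 ∨ t ∈ T) ∧ algebraMap E M t = z} :=
    ⟨_, rfl⟩
  have hspan0 : ⊤ ≤ Submodule.span L S0 := by
    intro z _
    have h1 := hT (z : K) z.2
    have h2 : {z : K | ∃ t : E, (t = 1 ∨ t ∈ T) ∧ (t : K) = z} = M.val.toLinearMap '' S0 := by
      ext w
      rw [hS0]
      constructor
      · rintro ⟨t, ht, rfl⟩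
        exact ⟨algebraMap E M t, ⟨t, ht, rfl⟩, rfl⟩
      · rintro ⟨_, ⟨t, ht, rfl⟩, rfl⟩
        exact ⟨t, ht, rfl⟩
    rw [h2, ← Submodule.map_span] at h1
    obtain ⟨w, hw, hwz⟩ := h1
    have h3 : w = z := Subtype.ext hwz
    rwa [← h3]
  obtain ⟨q, f, hf⟩ := Pool.Agent.U192.PB.exists_basis_mem (K := L) (L := M) S0 hspan0
  let S1 : Subfield N := E1.toSubfield.comap (algebraMap N K)
  have hadj : IntermediateField.adjoin M (S1 : Set N) = ⊤ := by
    rw [eq_top_iff]
    rintro ⟨z, hz⟩ -
    refine IntermediateField.adjoin_induction L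
      (p := fun z hz => (⟨z, hz⟩ : N) ∈ IntermediateField.adjoin M (S1 : Set N)) ?_ ?_ ?_ ?_ ?_ hz
    · intro z hz
      exact IntermediateField.subset_adjoin M _ hz
    · intro u
      exact (IntermediateField.adjoin M (S1 : Set N)).algebraMap_mem (algebraMap L M u)
    · intro x y _ _ hx hy
      exact add_mem hx hy
    · intro x _ hx
      exact inv_mem hx
    · intro x y _ _ hx hy
      exact mul_mem hx hy
  obtain ⟨q', b, hb⟩ := Pool.Agent.U192.PB.exists_basis_mem (K := M) (L := N) (S1 : Set N)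
    (span_subfield S1 hadj)
  have hb' : ∀ j, IsIntegral E (b j) := by
    intro j
    have h1 : ((b j : N) : K) ∈ E1 := hb j
    have h2 : IsIntegral E (⟨_, h1⟩ : E1) := (halgE.isAlgebraic _).isIntegral
    have tEK : IsScalarTower E E1 K := IsScalarTower.of_algebraMap_eq fun _ => rfl
    have h3 : IsIntegral E (algebraMap E1 K (⟨_, h1⟩ : E1)) := h2.algebraMap
    exact (isIntegral_algebraMap_iff (algebraMap N K).injective).1 h3
  have hf' : ∀ j, ∃ g : E, g ≠ 0 ∧ (g = 1 ∨ g ∈ T) ∧ algebraMap E M g = f j := by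
    intro j
    have h1 := hf j
    rw [hS0] at h1
    obtain ⟨g, hg, hgf⟩ := h1
    refine ⟨g, ?_, hg, hgf⟩
    rintro rfl
    rw [map_zero] at hgf
    exact f.ne_zero j hgf.symm
  -- the sections
  have hc : ∀ (m : ℕ) (c : N), pow_form m (fun j => algebraMap L N (y j)) c GN = c := by
    intro m c
    rw [pow_form, Pool.Agent.U192.NM.det_one' hGNd, one_pow, one_mul]
  have hreg : ∀ (m : ℕ) (θ : (Fin d → Derivation ℂ E E) → E), IsPluri m θ →
      (∀ v : Place ℂ E, Divisorial d v → ∀ G : Fin d → Derivation ℂ E E,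
        (∀ i, DerReg v (G i)) → θ G = 0 ∨ ∀ t : E, (t = 1 ∨ t ∈ T) → t ≠ 0 →
          (if BX v then -(m : ℤ) else 0) ≤ v.ord (θ G) + 2 * m * v.ord t) →
      RegS (fun P : Place ℂ L => if BL P then (1 : ℝ) else 0) M (d + 1) m {1}
        (fun j => algebraMap M N (f j))
        (pow_form m (fun j => algebraMap L N (y j)) (τ ^ m * algebraMap E N (θ Ex))) := by
    intro m θ hθ hpos
    rw [hτ]
    refine regS_tr (C := C) (K := K) hE hnN b hb' hf' (fun P Q e hQ v r hv hBv => ?_)
      (fun P Q e hQ hBP Q1 e1 hQ1 p hp e2 hQ2 => ?_) hθ hpos ht hD0 hφ hx hEx hyN hGNd hG'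
    · obtain ⟨Q1, e1, hQ1⟩ := exists_above (k := ℂ) (K := N) (L := K) Q
      exact (hBL P Q1 _ (over_trans hQ1 hQ)).2 (Or.inl ⟨v, _, hBv, over_trans hQ1 hv⟩)
    · exact hBP ((hBL P Q1 _ (over_trans hQ1 hQ)).2 (Or.inr ⟨p, hp, e2, hQ2⟩))
  refine ⟨fun m a hm θ hθ hpos G0 hG0 hind => ?_, fun m n θ hθ hpos hli => ?_⟩
  · have hθE : θ 0 Ex ≠ 0 := by
      intro h0
      apply hG0
      rw [pluri_coord hx hEx (hθ 0) G0, h0, mul_zero]
    have hr : ∀ j : Fin a, θ j.succ G0 / θ 0 G0 = θ j.succ Ex / θ 0 Ex := by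
      intro j
      have h1 := pluri_coord hx hEx (hθ 0) G0
      have h2 := pluri_coord hx hEx (hθ j.succ) G0
      have h3 : (Matrix.of fun i j => G0 i (x j) : Matrix (Fin d) (Fin d) E).det ^ m ≠ 0 := by
        intro h0
        apply hG0
        rw [h1, h0, zero_mul]
      rw [h1, h2]
      field_simp
    refine kodGe_of_pair_log hL (kod_of_regS (K := L) (M := M) (L := N) f hm hnN
      (θ := fun l => pow_form m (fun j => algebraMap L N (y j)) (τ ^ m * algebraMap E N (θ l Ex)))
      (fun l => pow_form_pluri _ _ _) (fun l => hreg m (θ l) (hθ l) (hpos l)) (D0 := GN) ?_ ?_)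
    · beta_reduce
      rw [hc]
      refine mul_ne_zero (pow_ne_zero _ hτ0) ?_
      rwa [Ne, map_eq_zero]
    · simp only [hc]
      have h1 : (fun j : Fin a => τ ^ m * algebraMap E N (θ j.succ Ex) /
          (τ ^ m * algebraMap E N (θ 0 Ex))) = fun j => IsScalarTower.toAlgHom ℂ E N
          (θ j.succ G0 / θ 0 G0) := by
        funext j
        rw [hr, mul_div_mul_left _ _ (pow_ne_zero _ hτ0)]
        exact (map_div₀ (algebraMap E N) _ _).symm
      rw [h1]
      exact hind.map' (algebraMap E N).injective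
  · obtain ⟨Z, hZ1, hZ⟩ := indep_of_norm (K := L) (M := M) (L := N) f {1}
      ⟨1, Finset.mem_singleton_self _, one_ne_zero⟩
    rw [hZ1 rfl] at hZ
    obtain ⟨ω, hω, hsec⟩ := hZ (fun P : Place ℂ L => if BL P then (1 : ℝ) else 0) (d + 1) m n hnN
      (fun l => pow_form m (fun j => algebraMap L N (y j)) (τ ^ m * algebraMap E N (θ l Ex)))
      (fun l => pow_form_pluri _ _ _) (fun l => hreg m (θ l) (hθ l) (hpos l)) (by
        rw [Fintype.linearIndependent_iff] at hli ⊢
        intro c hc0
        refine hli c ?_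
        have h1 := congrFun hc0 GN
        simp only [Finset.sum_apply, Pi.smul_apply, hc, Pi.zero_apply] at h1
        have h2 : algebraMap E N (∑ l, c l • θ l Ex) = 0 := by
          have h3 : τ ^ m * algebraMap E N (∑ l, c l • θ l Ex) = 0 := by
            rw [← h1, map_sum, Finset.mul_sum]
            refine Finset.sum_congr rfl fun l _ => ?_
            rw [Algebra.smul_def, Algebra.smul_def, map_mul,
              ← IsScalarTower.algebraMap_apply ℂ E N]
            ring
          exact (mul_eq_zero.1 h3).resolve_left (pow_ne_zero _ hτ0)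
        rw [map_eq_zero] at h2
        funext G
        rw [Finset.sum_apply]
        have h3 : ∀ l, (c l • θ l) G =
            (Matrix.of fun i j => G i (x j) : Matrix (Fin d) (Fin d) E).det ^ m *
              (c l • θ l Ex) := by
          intro l
          rw [Pi.smul_apply, pluri_coord hx hEx (hθ l) G, Algebra.smul_def, Algebra.smul_def]
          ring
        rw [Finset.sum_congr rfl fun l _ => h3 l, ← Finset.mul_sum, h2, mul_zero]
        rfl)
    exact ⟨ω, hω, fun l => logSec_of_pair hL (hsec l)⟩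

end

end Pool.Agent.U192.TF
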