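import Pool.Agent.U192.PB.Etale
import Pool.Agent.Y692.NT.Tr

/-!
Constant extensions are unramified.
-/

set_option autoImplicit false
set_option linter.overlappingInstances false
set_option linter.unusedSectionVars false

open FF Pool.Agent.W603.LV

namespace Pool.Agent.U192.TF

open Pool.Agent.U192.PB (inv_integral over_reg_alg)

section

variable {k K L N : Type} [Field k] [CharZero k] [Field K] [Field L] [Field N] [Algebra k K]
  [Algebra k L] [Algebra K L] [IsScalarTower k K L] [FiniteDimensional K L] [Algebra N K]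
  [Algebra N L] [IsScalarTower N K L]

/-- the coordinates of functions in the inverse different are regular -/
theorem coord_reg' {δ : ℕ} (b : Module.Basis (Fin δ) K L) (hb : ∀ j, IsIntegral N (b j))
    {P : Place k K} (hP : ∀ c : N, P.Reg (algebraMap N K c)) {f : L}
    (hf : ∀ (Q : Place k L) (e : ℕ), Over Q P e → Ge Q (1 - e) f) (j : Fin δ) :
    P.Reg (b.equivFun f j) := by
  classical
  have hcK : CharZero K := charZero_of_injective_algebraMap (algebraMap k K).injective
  obtain ⟨M, hM⟩ : ∃ M, M = Algebra.traceMatrix K b := ⟨_, rfl⟩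
  have hMi : ∀ i j, IsIntegral N (M i j) := by
    intro i j
    rw [hM, Algebra.traceMatrix_apply, Algebra.traceForm_apply]
    exact Algebra.isIntegral_trace ((hb i).mul (hb j))
  have hdet : IsUnit M.det := by
    have h1 := Algebra.discr_isUnit_of_basis K b
    rw [Algebra.discr_def] at h1
    rw [hM]
    exact h1
  have h1 := Algebra.traceMatrix_of_basis_mulVec b f
  rw [← hM] at h1
  have h2 : b.equivFun f = M⁻¹.mulVec fun i => Algebra.trace K L (f * b i) := by
    rw [← h1, Matrix.mulVec_mulVec, Matrix.nonsing_inv_mul _ hdet, Matrix.one_mulVec]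
  rw [h2]
  change P.Reg (∑ i, M⁻¹ j i * Algebra.trace K L (f * b i))
  have h3 : Ge P 0 (∑ i, M⁻¹ j i * Algebra.trace K L (f * b i)) := by
    refine Ge.sum _ _ fun i _ => ?_
    have h4 : P.Reg (M⁻¹ j i) := P.reg_of_isIntegral hP (inv_integral hMi j i)
    have h5 : Ge P 0 (Algebra.trace K L (f * b i)) := by
      refine Pool.Agent.Y692.NT.trace_reg P _ fun Q e hQ => ?_
      have h6 := (hf Q e hQ).mul (over_reg_alg hQ hP (hb i) : Ge Q 0 (b i))
      rwa [add_zero] at h6
    have h6 := (show Ge P 0 (M⁻¹ j i) from h4).mul h5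
    rwa [zero_add] at h6
  exact h3

/-- **Constant extensions are unramified.** -/
theorem unram {δ : ℕ} (b : Module.Basis (Fin δ) K L) (hb : ∀ j, IsIntegral N (b j))
    {P : Place k K} (hP : ∀ c : N, P.Reg (algebraMap N K c)) {Q : Place k L} {e : ℕ}
    (hQ : Over Q P e) : e = 1 := by
  classical
  have hcK : CharZero K := charZero_of_injective_algebraMap (algebraMap k K).injective
  by_contra hne
  have he : 2 ≤ e := by
    have := hQ.1
    omega
  have hfin := Pool.Agent.Y172.finite_over (K' := L) P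
  obtain ⟨S, hS⟩ : ∃ S : Finset (Place k L), S = hfin.toFinset.erase Q := ⟨_, rfl⟩
  obtain ⟨π, hπ0, hπ⟩ := Q.surj
  obtain ⟨c, hc1, hc2⟩ := Pool.Agent.W619.PQ.approx_one S Q (by
    rw [hS]
    exact Finset.notMem_erase _ _) π⁻¹ 0
  have hi : Q.ord π⁻¹ = -1 := by rw [Q.ord_inv, hπ]
  have hc : c ≠ 0 ∧ Q.ord c = -1 := by
    by_cases h0 : c - π⁻¹ = 0
    · have h1 : c = π⁻¹ := sub_eq_zero.1 h0
      rw [h1]
      exact ⟨inv_ne_zero hπ0, hi⟩
    · have h1 := hc1.resolve_left h0
      have h2 := Q.ord_add_eq (f := π⁻¹) (g := c - π⁻¹) (inv_ne_zero hπ0) h0 (by omega)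
      rw [add_sub_cancel, hi] at h2
      exact h2
  have h1 : ∀ (Q' : Place k L) (e' : ℕ), Over Q' P e' → Ge Q' (1 - e') c := by
    intro Q' e' hQ'
    by_cases h : Q' = Q
    · subst h
      have h2 := (Pool.Agent.Y172.over_unique' hQ' hQ).2
      right
      rw [hc.2, h2]
      omega
    · have hmem : Q' ∈ S := by
        rw [hS, Finset.mem_erase, Set.Finite.mem_toFinset]
        exact ⟨h, e', hQ'⟩
      have h2 := hQ'.1
      exact (hc2 Q' hmem).mono (by omega)
  have h2 : Ge Q 0 c := by
    have h3 : c = ∑ j, b.equivFun c j • b j := (b.sum_equivFun c).symm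
    rw [h3]
    refine Ge.sum _ _ fun j _ => ?_
    rw [Algebra.smul_def]
    have h4 : Ge Q 0 (algebraMap K L (b.equivFun c j)) := hQ.reg.2 (coord_reg' b hb hP h1 j)
    have h5 : Ge Q 0 (b j) := over_reg_alg hQ hP (hb j)
    have h6 := h4.mul h5
    rwa [zero_add] at h6
  have h3 := h2.resolve_left hc.1
  rw [hc.2] at h3
  omega

end

end Pool.Agent.U192.TF
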