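import Pool.Agent.U192.TF.Main

/-!
Products of pluricanonical forms on a variety with several traces along a curve: the regularity.
-/

set_option autoImplicit false
set_option linter.overlappingInstances false
set_option linter.unusedSectionVars false

open FF Pool.Agent.W602.GT Pool.Agent.W603.LV Pool.Agent.W619.PQ Pool.Agent.Y172
open Pool.Agent.N145.PL (HL bd)
open Pool.Agent.N145.SX (BdX zz)
open Pool.Agent.Y184.NT (trForm trForm_pluri)

namespace Pool.Agent.U192.TF

open Pool.Agent.U192.NM (pow_form pow_form_pluri)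
open Pool.Agent.U192.PE (RegS)

section

variable {L M N K E C : Type} [Field L] [Field M] [Field N] [Field K] [Field E] [Field C]
  [Algebra ℂ L] [Algebra ℂ M] [Algebra ℂ N] [Algebra ℂ K] [Algebra ℂ E] [Algebra ℂ C]
  [Algebra L M] [Algebra L N] [Algebra M N] [Algebra N K]
  [Algebra E M] [Algebra E N] [Algebra E K] [Algebra C K]
  [IsScalarTower ℂ L M] [IsScalarTower ℂ L N] [IsScalarTower ℂ M N] [IsScalarTower ℂ N K]
  [IsScalarTower L M N] [IsScalarTower ℂ E M] [IsScalarTower ℂ E N] [IsScalarTower ℂ E K]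
  [IsScalarTower E M N] [IsScalarTower E N K] [IsScalarTower ℂ C K]
  [FiniteDimensional L M] [FiniteDimensional L N] [FiniteDimensional M N] [FiniteDimensional N K]
  [IsFF ℂ C] [Algebra.EssFiniteType ℂ L] [Algebra.EssFiniteType ℂ N]
  [Algebra.EssFiniteType ℂ K] [Algebra.EssFiniteType ℂ E]

theorem value_prod {d m : ℕ} {y : Fin (d + 1) → N} {τ : Fin m → N} {c : N}
    {F : Fin (d + 1) → Derivation ℂ N N} :
    pow_form m y ((∏ k, τ k) * c) F = (∏ k, trForm y (τ k) F) * c := by
  unfold pow_form trForm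
  rw [Finset.prod_mul_distrib, Finset.prod_const, Finset.card_univ, Fintype.card_fin]
  ring

theorem ge_prod {Q : Place ℂ N} {m : ℕ} {c : ℤ} {g : Fin m → N} (h : ∀ k, Ge Q c (g k)) :
    Ge Q (m * c) (∏ k, g k) := by
  have h1 := Ge.prod (P := Q) Finset.univ g (fun _ => c) fun k _ => h k
  rw [Finset.sum_const, Finset.card_univ, Fintype.card_fin, nsmul_eq_mul] at h1
  exact h1

/-- **The products with the traces are regular.** -/
theorem regS_prod {d m q q' : ℕ} (hE : Algebra.trdeg ℂ E = d)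
    (hn : Algebra.trdeg ℂ N = (d + 1 : ℕ)) (b : Module.Basis (Fin q') M N)
    (hb : ∀ j, IsIntegral E (b j)) {T : Finset E} {f : Fin q → M}
    (hf : ∀ j, ∃ g : E, g ≠ 0 ∧ (g = 1 ∨ g ∈ T) ∧ algebraMap E M g = f j)
    {BX : Place ℂ E → Prop} {B : Set (Place ℂ C)} {BL : Place ℂ L → Prop} [DecidablePred BX]
    [DecidablePred BL]
    (hBX : ∀ (P : Place ℂ L) (Q : Place ℂ N) (e : ℕ), Over Q P e → ∀ (v : Place ℂ E) (r : ℕ),
      Over Q v r → BX v → BL P)
    (hBC : ∀ (P : Place ℂ L) (Q : Place ℂ N) (e : ℕ), Over Q P e → ¬ BL P →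
      ∀ (Q1 : Place ℂ K) (e1 : ℕ), Over Q1 Q e1 → ∀ p ∈ B, ∀ e : ℕ, ¬ Over Q1 p e)
    {θ : (Fin d → Derivation ℂ E E) → E} (hθ : IsPluri m θ)
    (hpos : ∀ v : Place ℂ E, Divisorial d v → ∀ G : Fin d → Derivation ℂ E E,
      (∀ i, DerReg v (G i)) → θ G = 0 ∨ ∀ t : E, (t = 1 ∨ t ∈ T) → t ≠ 0 →
        (if BX v then -(m : ℤ) else 0) ≤ v.ord (θ G) + 2 * m * v.ord t)
    {t : C} (ht : Transcendental ℂ t) {D0 : Derivation ℂ C C} (hD0 : D0 t = 1)
    {φ : Fin m → C} (hφ : ∀ k, φ k ∈ HL D0 B) {x : Fin d → E} {Ex : Fin d → Derivation ℂ E E}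
    (hx : IsTranscendenceBasis ℂ x) (hEx : ∀ i j, Ex i (x j) = if i = j then 1 else 0)
    {y : Fin (d + 1) → N} {G : Fin (d + 1) → Derivation ℂ N N} (hy : IsTranscendenceBasis ℂ y)
    (hG : ∀ i j, G i (y j) = if i = j then 1 else 0) {G' : Fin (d + 1) → Derivation ℂ K K}
    (hG' : ∀ i f, G' i (algebraMap N K f) = algebraMap N K (G i f)) :
    RegS (fun P : Place ℂ L => if BL P then (1 : ℝ) else 0) M (d + 1) m {1}
      (fun j => algebraMap M N (f j))
      (pow_form m y ((∏ k, tr x t (φ k) G') * algebraMap E N (θ Ex))) := by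
  classical
  intro P Q e hQ hQd c hc F hF
  by_cases hcase : pow_form m y ((∏ k, tr x t (φ k) G') * algebraMap E N (θ Ex)) F = 0
  · exact Or.inl hcase
  refine Or.inr ⟨1, Finset.mem_singleton_self _, one_ne_zero, fun j => ?_⟩
  rw [Q.ord_one, Int.cast_zero, add_zero]
  obtain ⟨g, hg0, hgT, hgf⟩ := hf j
  have e1 : algebraMap M N (f j) = algebraMap E N g := by
    rw [← hgf, ← IsScalarTower.algebraMap_apply E M N]
  rw [value_prod] at hcase ⊢
  obtain ⟨τ, hτ⟩ : ∃ τ : Fin m → N, ∀ k, τ k = tr x t (φ k) G' := ⟨_, fun _ => rfl⟩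
  simp only [← hτ] at hcase ⊢
  have hm0 : (0 : ℤ) ≤ m := Int.natCast_nonneg m
  have hce : c ∣ e := by
    obtain ⟨π, -, hπ⟩ := P.surj
    have h1 := hc (algebraMap L M π)
    rw [← IsScalarTower.algebraMap_apply L M N, hQ.2, hπ, mul_one] at h1
    exact_mod_cast h1
  have hce' : (c : ℤ) ≤ e := by exact_mod_cast Nat.le_of_dvd hQ.1 hce
  suffices h : (m : ℤ) * (c - 1) ≤ Q.ord ((∏ k, trForm y (τ k) F) * algebraMap E N (θ Ex)) +
      2 * m * Q.ord (algebraMap M N (f j)) + m * e * (if BL P then 1 else 0) by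
    have h2 : (((m : ℤ) * (c - 1) : ℤ) : ℝ) ≤
      ((Q.ord ((∏ k, trForm y (τ k) F) * algebraMap E N (θ Ex)) +
      2 * m * Q.ord (algebraMap M N (f j)) + m * e * (if BL P then 1 else 0) : ℤ) : ℝ) := by
      exact_mod_cast h
    push_cast at h2
    exact h2
  rw [e1]
  have hne1 := left_ne_zero_of_mul hcase
  have hne2 := right_ne_zero_of_mul hcase
  by_cases htriv : ∀ z : E, Q.ord (algebraMap E N z) = 0
  · rw [Q.ord_mul hne1 hne2, htriv, htriv, add_zero, mul_zero, add_zero]
    by_cases hBL : BL P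
    · rw [if_pos hBL, mul_one]
      have h1 := ge_prod (Q := Q) (m := m) (c := -1) (g := fun k => trForm y (τ k) F) fun k => by
        rw [hτ]
        exact ge_triv ht hD0 (hφ k) hn hy hG hG' hQd htriv (x := x) (fun b h0 => by
          have h1 := hx.1.transcendental b
          rw [h0] at h1
          exact h1 isAlgebraic_zero) hF
      have h2 := h1.resolve_left hne1
      have h3 : (m : ℤ) * c ≤ m * e := mul_le_mul_of_nonneg_left hce' hm0
      linarith
    · rw [if_neg hBL, mul_zero, add_zero]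
      have h1 := ge_prod (Q := Q) (m := m) (c := 0) (g := fun k => trForm y (τ k) F) fun k => by
        rw [hτ]
        exact ge_triv_reg ht hD0 (hφ k) hn hy hG hG' hQd htriv (hBC P Q e hQ hBL) (x := x) hF
      rw [mul_zero] at h1
      have h2 := h1.resolve_left hne1
      obtain ⟨PM, e', hPM⟩ := exists_below (k := ℂ) (K := M) (L := N) Q
      have h3 : e' = 1 := unram b hb (fun c => hPM.reg.1 (by
        rw [← IsScalarTower.algebraMap_apply E M N]
        exact Or.inr (htriv c).ge)) hPM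
      obtain ⟨π, -, hπ⟩ := PM.surj
      have h4 := hc π
      rw [hPM.2, hπ, h3] at h4
      have h5 : c = 1 := Nat.dvd_one.1 (by exact_mod_cast h4)
      rw [h5]
      push_cast
      linarith
  · push Not at htriv
    obtain ⟨z, hz⟩ := htriv
    obtain ⟨r, v, hv⟩ := exists_over (K := E) Q ⟨z, hz⟩
    have hvd : Divisorial d v := Pool.Agent.W619.Y.pDIVR.{0, 0} ℂ E N d (d + 1) v Q r hE hn hv hQd
    obtain ⟨x', E', i0, hl⟩ := exists_loc hE hvd
    have hcr : (c : ℤ) ≤ r := by
      obtain ⟨π, -, hπ⟩ := v.surj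
      have h1 := hc (algebraMap E M π)
      rw [← IsScalarTower.algebraMap_apply E M N, hv.2, hπ, mul_one] at h1
      exact_mod_cast Nat.le_of_dvd hv.1 (by exact_mod_cast h1)
    obtain ⟨τ', hτ'⟩ : ∃ τ' : Fin m → N, ∀ k, τ' k = tr x' t (φ k) G' := ⟨_, fun _ => rfl⟩
    obtain ⟨u, hu⟩ : ∃ u : E, u = (Matrix.of fun i j => E' i (x j)).det := ⟨_, rfl⟩
    have h1 : ∀ k, τ k = algebraMap E N u * τ' k := by
      intro k
      rw [hτ, hτ', hu]
      exact tr_change hl.bas hl.dual t (φ k) G'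
    have h2 : θ E' = u ^ m * θ Ex := by
      rw [hu]
      exact pluri_coord hx hEx hθ E'
    have h3 : (∏ k, trForm y (τ k) F) * algebraMap E N (θ Ex) =
        (∏ k, trForm y (τ' k) F) * algebraMap E N (θ E') := by
      have h4 : ∀ k, trForm y (τ k) F = algebraMap E N u * trForm y (τ' k) F := by
        intro k
        rw [h1, trForm_smul]
      rw [Finset.prod_congr rfl fun k _ => h4 k, Finset.prod_mul_distrib, Finset.prod_const,
        Finset.card_univ, Fintype.card_fin, h2, map_mul, map_pow]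
      ring
    rw [h3] at hcase ⊢
    have hne3 := left_ne_zero_of_mul hcase
    have hne4 := right_ne_zero_of_mul hcase
    have h4 := ge_prod (Q := Q) (m := m) (c := (r : ℤ) - 1) (g := fun k => trForm y (τ' k) F)
      fun k => by
        rw [hτ']
        exact ge_nontriv ht hD0 (hφ k) hn hy hG hG' hQd hv hl hF
    have h5 := h4.resolve_left hne3
    have h6 := ((hpos v hvd E' hl.pres).resolve_left fun h => hne4 (by rw [h, map_zero])) g hgT hg0
    rw [Q.ord_mul hne3 hne4, hv.2, hv.2]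
    have hr0 : (0 : ℤ) ≤ r := Int.natCast_nonneg r
    have h7 := mul_le_mul_of_nonneg_left h6 hr0
    have hr : (m : ℤ) * c ≤ m * r := mul_le_mul_of_nonneg_left hcr hm0
    have he : (m : ℤ) * c ≤ m * e := mul_le_mul_of_nonneg_left hce' hm0
    have he0 : (0 : ℤ) ≤ m * e := mul_nonneg hm0 (Int.natCast_nonneg e)
    by_cases hBv : BX v
    · rw [if_pos (hBX P Q e hQ v r hv hBv)]
      rw [if_pos hBv] at h7
      nlinarith
    · rw [if_neg hBv] at h7
      split_ifs
      · nlinarith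
      · nlinarith

end

end Pool.Agent.U192.TF
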