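import Pool.Agent.U192.TF.Gen
import Pool.Agent.U192.TF.Prod
import Pool.Agent.U192.TF.Fin
import Pool.Agent.U192.NM.Main
import Pool.Agent.N145.SX.All3

/-!
Auxiliary statements on traces, algebraic independence and the numerical dimension.
-/

set_option autoImplicit false
set_option linter.overlappingInstances false
set_option linter.unusedSectionVars false
set_option maxHeartbeats 4000000
set_option synthInstance.maxHeartbeats 400000

open FF Module Pool.Agent.W602.GT Pool.Agent.W603.LV Pool.Agent.W619.PQ Pool.Agent.Y172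
open Pool.Agent.W619.TW (NumLe HasIndep IsSec Dom)
open Pool.Agent.N145.SX (GLO GeoFib flat_of_glo)

namespace Pool.Agent.U192.TF

/-- the trace to an intermediate field which is the base field -/
theorem trace_adj {N K : Type} [Field N] [Field K] [Algebra N K] [FiniteDimensional N K] {S : Set K}
    (hS : ∀ z ∈ S, ∃ n : N, algebraMap N K n = z) (g : K) :
    ((Algebra.trace (IntermediateField.adjoin N S) K g : IntermediateField.adjoin N S) : K) =
      algebraMap N K (Algebra.trace N K g) := by
  have h1 : IntermediateField.adjoin N S = ⊥ := by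
    rw [eq_bot_iff, IntermediateField.adjoin_le_iff]
    intro z hz
    obtain ⟨n, hn⟩ := hS z hz
    exact IntermediateField.mem_bot.2 ⟨n, hn⟩
  obtain ⟨A, hA⟩ : ∃ A, A = IntermediateField.adjoin N S := ⟨_, rfl⟩
  rw [← hA] at h1 ⊢
  clear hA
  subst h1
  obtain ⟨v, hv⟩ := IntermediateField.mem_bot.1
    ((Algebra.trace (⊥ : IntermediateField N K) K g : (⊥ : IntermediateField N K))).2
  have h2 : Algebra.trace (⊥ : IntermediateField N K) K g =
      algebraMap N (⊥ : IntermediateField N K) v := Subtype.ext hv.symm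
  have h3 := Algebra.trace_trace (R := N) (S := (⊥ : IntermediateField N K)) (T := K) g
  rw [h2, Algebra.trace_algebraMap, IntermediateField.finrank_bot, one_smul] at h3
  rw [← h3]
  exact hv.symm

/-- adding a function which is transcendental over the base -/
theorem indep_snoc {E N : Type} [Field E] [Field N] [Algebra ℂ E] [Algebra ℂ N] [Algebra E N]
    [IsScalarTower ℂ E N] {a : ℕ} {x : Fin a → E} (hx : AlgebraicIndependent ℂ x) {u : N}
    (hu : Transcendental E u) :
    AlgebraicIndependent ℂ (Fin.snoc (α := fun _ => N) (fun j => algebraMap E N (x j)) u) := by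
  have h1 : AlgebraicIndependent E (fun _ : Fin 1 => u) := by
    rw [algebraicIndependent_unique_type_iff]
    exact hu
  have h2 := hx.sumElim_comp h1
  let e : Fin (a + 1) → Fin 1 ⊕ Fin a := Fin.lastCases (Sum.inl 0) Sum.inr
  have he1 : e (Fin.last a) = Sum.inl 0 := Fin.lastCases_last
  have he2 : ∀ i : Fin a, e i.castSucc = Sum.inr i := fun i => Fin.lastCases_castSucc _
  have he : Function.Injective e := by
    intro a b hab
    induction a using Fin.lastCases with
    | last =>
      induction b using Fin.lastCases with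
      | last => rfl
      | cast j =>
        rw [he1, he2] at hab
        cases hab
    | cast i =>
      induction b using Fin.lastCases with
      | last =>
        rw [he1, he2] at hab
        cases hab
      | cast j =>
        rw [he2, he2] at hab
        rw [Sum.inr_injective hab]
  have h3 := h2.comp e he
  have h4 : (Sum.elim (fun _ : Fin 1 => u) (algebraMap E N ∘ x)) ∘ e =
      Fin.snoc (α := fun _ => N) (fun j => algebraMap E N (x j)) u := by
    funext i
    rw [Function.comp_apply]
    induction i using Fin.lastCases with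
    | last =>
      rw [he1, Fin.snoc_last]
      rfl
    | cast i =>
      rw [he2, Fin.snoc_castSucc]
      rfl
  rw [h4] at h3
  exact h3

/-- the numerical dimension of a fibration in curves of genus at most one -/
theorem numLe_fib {E0 N Λ F : Type} [Field E0] [Field N] [Field Λ] [Field F] [Algebra ℂ E0]
    [Algebra ℂ N] [Algebra E0 N] [IsScalarTower ℂ E0 N] [Algebra.EssFiniteType ℂ E0]
    [Algebra.EssFiniteType ℂ N] [Algebra E0 Λ] [Algebra E0 F] [Algebra Λ F] [IsScalarTower E0 Λ F]
    [IsAlgClosed Λ] [Algebra.IsAlgebraic E0 Λ] [IsFF Λ F] {d : ℕ} (hE0 : Algebra.trdeg ℂ E0 = d)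
    (hN : Algebra.trdeg ℂ N = (d + 1 : ℕ))
    (hcl : ∀ x : N, IsIntegral E0 x → ∃ y : E0, algebraMap E0 N y = x) (ψ : N →ₐ[E0] F)
    (hgen : IntermediateField.adjoin Λ (Set.range ψ) = ⊤) (hglo : GLO Λ F) :
    NumLe ℂ N (d + 1) (fun _ => False) d := by
  let iNF : Algebra N F := ψ.toRingHom.toAlgebra
  let iCΛ : Algebra ℂ Λ := ((algebraMap E0 Λ).comp (algebraMap ℂ E0)).toAlgebra
  let iCF : Algebra ℂ F := ((algebraMap E0 F).comp (algebraMap ℂ E0)).toAlgebra
  have t1 : IsScalarTower ℂ E0 Λ := IsScalarTower.of_algebraMap_eq fun _ => rfl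
  have t2 : IsScalarTower E0 N F := IsScalarTower.of_algebraMap_eq fun z => (ψ.commutes z).symm
  have t3 : IsScalarTower ℂ Λ F := IsScalarTower.of_algebraMap_eq fun c => by
    change algebraMap E0 F (algebraMap ℂ E0 c) = algebraMap Λ F (algebraMap E0 Λ (algebraMap ℂ E0 c))
    rw [← IsScalarTower.algebraMap_apply E0 Λ F]
  have t4 : IsScalarTower ℂ N F := IsScalarTower.of_algebraMap_eq fun c => by
    change algebraMap E0 F (algebraMap ℂ E0 c) = ψ (algebraMap ℂ N c)
    rw [IsScalarTower.algebraMap_apply ℂ E0 N]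
    exact (ψ.commutes _).symm
  have hc : CharZero Λ := charZero_of_injective_algebraMap (algebraMap ℂ Λ).injective
  have h1 := Pool.Agent.Y174.easy_add (k := ℂ) (K := N) (L := E0) (Λ := Λ) (F := F) inferInstance
    inferInstance hgen hcl hE0 (r := 0) hN (numLe_glo hglo)
  exact h1

/-- **The numerical dimension of a fibration in curves of genus at most one.** -/
theorem numLe_geoFib {N : Type} [Field N] [Algebra ℂ N] [Algebra.EssFiniteType ℂ N] {d : ℕ}
    {E0 : IntermediateField ℂ N} (hE0 : Algebra.trdeg ℂ E0 = d)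
    (hN : Algebra.trdeg ℂ N = (d + 1 : ℕ)) (hcl : ∀ z : N, IsAlgebraic E0 z → z ∈ E0)
    (h : GeoFib N E0) : NumLe ℂ N (d + 1) (fun _ => False) d := by
  obtain ⟨Λ, F, i1, i2, i3, i4, i5, i6, i7, i8, i9, ψ, hgen, hglo⟩ := h
  have hess : Algebra.EssFiniteType ℂ E0 := Pool.Agent.N999.SX.ess_any E0
  exact numLe_fib (E0 := E0) (Λ := Λ) (F := F) hE0 hN
    (fun z hz => ⟨⟨z, hcl z hz.isAlgebraic⟩, rfl⟩) ψ hgen hglo

/-- the numerical dimension of an image -/
theorem numLe_below {K L : Type} [Field K] [Field L] [Algebra ℂ K] [Algebra ℂ L] [Algebra K L]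
    [IsScalarTower ℂ K L] [FiniteDimensional K L] [Algebra.EssFiniteType ℂ K]
    [Algebra.EssFiniteType ℂ L] {n a : ℕ} (hnK : Algebra.trdeg ℂ K = n)
    (h : NumLe ℂ L n (fun _ => False) a) : NumLe ℂ K n (fun _ => False) a := by
  have h2 := (Pool.Agent.W619.Y.pTRANS.{0, 0} ℂ K L n hnK (fun y hy => fd_basis hy)
    (fun _ => False)).2.2 a
  have h3 : Pool.Agent.W619.Y.BdUp (fun _ : Place ℂ K => False) =
      (fun _ : Place ℂ L => False) := by
    funext w
    exact propext ⟨fun ⟨_, _, _, h⟩ => h, False.elim⟩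
  rw [h3] at h2
  exact h2 h

end Pool.Agent.U192.TF
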