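import Pool.Agent.U192.TD.Uni
import Pool.Agent.N145.SX.All

/-!
Products of forms on a variety and on a curve: local estimates.
-/

set_option autoImplicit false
set_option linter.overlappingInstances false
set_option linter.unusedSectionVars false

open FF Pool.Agent.W602.GT Pool.Agent.W603.LV Pool.Agent.W619.PQ Pool.Agent.Y172
open Pool.Agent.N145.PL (HL bd)
open Pool.Agent.N145.SX (BdX zz)
open Pool.Agent.Y184.NT (trForm trForm_pluri)

namespace Pool.Agent.U192.TF

section

variable {K E C : Type} [Field K] [Field E] [Field C] [Algebra ℂ K] [Algebra ℂ E] [Algebra ℂ C]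
  [Algebra E K] [Algebra C K] [IsScalarTower ℂ E K] [IsScalarTower ℂ C K] [IsFF ℂ C] {d : ℕ}

theorem minor_log {Q : Place ℂ K} {x : Fin d → E} {i0 : Fin d} (hx : ∀ b, Ge Q 0 (algebraMap E K (x b)))
    (h0 : ∀ b, x b ≠ 0) {D : Fin d → Derivation ℂ K K} (hD : ∀ i, DerLog Q (D i)) :
    Ge Q 0 ((Matrix.of fun a b => D a (algebraMap E K (x b)) : Matrix (Fin d) (Fin d) K).det *
      algebraMap E K (x i0)⁻¹) := by
  classical
  have h1 : (Matrix.of fun a b => D a (algebraMap E K (x b)) : Matrix (Fin d) (Fin d) K).det *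
      algebraMap E K (x i0)⁻¹ =
      (Matrix.of fun a b => (if b = i0 then algebraMap E K (x i0)⁻¹ else 1) *
        D a (algebraMap E K (x b)) : Matrix (Fin d) (Fin d) K).det := by
    have h2 := Matrix.det_mul_row (fun b => if b = i0 then algebraMap E K (x i0)⁻¹ else 1)
      (Matrix.of fun a b => D a (algebraMap E K (x b)) : Matrix (Fin d) (Fin d) K)
    rw [Finset.prod_ite_eq' Finset.univ i0, if_pos (Finset.mem_univ i0), mul_comm] at h2
    exact h2.symm
  rw [h1]
  refine ge_det Q _ fun a b => ?_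
  rw [Matrix.of_apply]
  have h2 : Ge Q 0 (D a (algebraMap E K (x b)) / algebraMap E K (x b)) := hD a _
  by_cases hb : b = i0
  · rw [if_pos hb, hb, map_inv₀, mul_comm, ← div_eq_mul_inv]
    rw [hb] at h2
    exact h2
  · rw [if_neg hb, one_mul]
    have h3 : algebraMap E K (x b) ≠ 0 := by
      rw [Ne, map_eq_zero]
      exact h0 b
    have h4 := h2.mul (hx b)
    rwa [div_mul_cancel₀ _ h3, zero_add] at h4

theorem minor_log' {Q : Place ℂ K} {x : Fin d → E} (hx : ∀ b, Ge Q 0 (algebraMap E K (x b)))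
    (h0 : ∀ b, x b ≠ 0) {D : Fin d → Derivation ℂ K K} (hD : ∀ i, DerLog Q (D i)) :
    Ge Q 0 ((Matrix.of fun a b => D a (algebraMap E K (x b)) : Matrix (Fin d) (Fin d) K).det *
      algebraMap E K 1) := by
  rw [map_one, mul_one]
  refine ge_det Q _ fun a b => ?_
  rw [Matrix.of_apply]
  have h2 : Ge Q 0 (D a (algebraMap E K (x b)) / algebraMap E K (x b)) := hD a _
  have h3 : algebraMap E K (x b) ≠ 0 := by
    rw [Ne, map_eq_zero]
    exact h0 b
  have h4 := h2.mul (hx b)
  rwa [div_mul_cancel₀ _ h3, zero_add] at h4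

theorem minor_reg {Q : Place ℂ K} {x : Fin d → E} (hx : ∀ b, Ge Q 0 (algebraMap E K (x b)))
    {D : Fin d → Derivation ℂ K K} (hD : ∀ i, DerReg Q (D i)) :
    Ge Q 0 ((Matrix.of fun a b => D a (algebraMap E K (x b)) : Matrix (Fin d) (Fin d) K).det *
      algebraMap E K 1) := by
  rw [map_one, mul_one]
  refine ge_det Q _ fun a b => ?_
  rw [Matrix.of_apply]
  exact hD a _ (hx b)

variable {t : C} (ht : Transcendental ℂ t) {D0 : Derivation ℂ C C} (hD0 : D0 t = 1)
  {B : Set (Place ℂ C)} {φ : C} (hφ : φ ∈ HL D0 B)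

include ht hD0 hφ in
/-- the product form divided by a coordinate is logarithmic -/
theorem form_logx {Q : Place ℂ K} {x : Fin d → E} {i0 : Fin d}
    (hx : ∀ b, Ge Q 0 (algebraMap E K (x b))) (h0 : ∀ b, x b ≠ 0) :
    LogAt Q (trForm (zz K x t) (algebraMap E K (x i0)⁻¹ * algebraMap C K φ)) := by
  intro D hD
  exact Pool.Agent.N221.SX.expand Q x (x i0)⁻¹ t φ D
    (fun i => Pool.Agent.N221.SX.ent_log ht hD0 hφ Q (hD i))
    fun i => minor_log hx h0 fun a => hD _

include ht hD0 hφ in
/-- the product form is logarithmic -/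
theorem form_log {Q : Place ℂ K} {x : Fin d → E}
    (hx : ∀ b, Ge Q 0 (algebraMap E K (x b))) (h0 : ∀ b, x b ≠ 0) :
    LogAt Q (trForm (zz K x t) (algebraMap C K φ)) := by
  intro D hD
  have h1 := Pool.Agent.N221.SX.expand Q x 1 t φ D
    (fun i => Pool.Agent.N221.SX.ent_log ht hD0 hφ Q (hD i))
    fun i => minor_log' hx h0 fun a => hD _
  rwa [map_one, one_mul] at h1

include ht hD0 hφ in
/-- the product form is regular outside the boundary of the curve -/
theorem form_reg {Q : Place ℂ K} (hQ : ∀ p ∈ B, ∀ e : ℕ, ¬ Over Q p e) {x : Fin d → E}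
    (hx : ∀ b, Ge Q 0 (algebraMap E K (x b))) :
    RegAt Q (trForm (zz K x t) (algebraMap C K φ)) := by
  intro D hD
  have h1 := Pool.Agent.N221.SX.expand Q x 1 t φ D
    (fun i => Pool.Agent.N221.SX.ent_reg ht hD0 hφ Q hQ (hD i))
    fun i => minor_reg hx fun a => hD _
  rwa [map_one, one_mul] at h1

/-- change of the coordinates on the variety -/
theorem form_change_x [Algebra.EssFiniteType ℂ E] {x x' : Fin d → E} {E' : Fin d → Derivation ℂ E E}
    (hx' : IsTranscendenceBasis ℂ x') (hE' : ∀ i j, E' i (x' j) = if i = j then 1 else 0)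
    (t : C) (g : K) (D : Fin (d + 1) → Derivation ℂ K K) :
    trForm (zz K x t) g D = algebraMap E K (Matrix.of fun i j => E' i (x j)).det *
      trForm (zz K x' t) g D := by
  unfold trForm
  rw [← mul_assoc]
  congr 1
  rw [Matrix.det_succ_column _ (Fin.last d), Matrix.det_succ_column _ (Fin.last d),
    Finset.mul_sum]
  refine Finset.sum_congr rfl fun i _ => ?_
  have e1 : ∀ u : Fin d → E, (Matrix.of fun i j => D i (zz K u t j) :
      Matrix (Fin (d + 1)) (Fin (d + 1)) K) i (Fin.last d) = D i (algebraMap C K t) := by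
    intro u
    rw [Matrix.of_apply]
    unfold zz
    rw [Fin.snoc_last]
  have e2 : ∀ u : Fin d → E, (Matrix.of fun i j => D i (zz K u t j) :
      Matrix (Fin (d + 1)) (Fin (d + 1)) K).submatrix i.succAbove (Fin.last d).succAbove =
      (Matrix.of fun a b => D (i.succAbove a) (algebraMap E K (u b)) :
        Matrix (Fin d) (Fin d) K) := by
    intro u
    ext a b
    rw [Matrix.submatrix_apply, Matrix.of_apply, Matrix.of_apply, Fin.succAbove_last]
    unfold zz
    rw [Fin.snoc_castSucc]
  rw [e1, e1, e2, e2, Pool.Agent.U192.TD.det_change x hx' hE' fun a => D (i.succAbove a)]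
  ring

end

end Pool.Agent.U192.TF
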