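import Pool.Agent.U192.TF.Loc

/-!
Products of forms on a variety and on a curve: the traces.
-/

set_option autoImplicit false
set_option linter.overlappingInstances false
set_option linter.unusedSectionVars false

open FF Pool.Agent.W602.GT Pool.Agent.W603.LV Pool.Agent.W619.PQ Pool.Agent.Y172
open Pool.Agent.N145.PL (HL bd)
open Pool.Agent.N145.SX (BdX zz)
open Pool.Agent.Y184.NT (trForm trForm_pluri)

namespace Pool.Agent.U192.TF

/-- logarithmic forms on regular vector fields -/
theorem ge_of_log {M : Type} [Field M] [Algebra ℂ M] [Algebra.EssFiniteType ℂ M] {n m : ℕ}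
    (hn : Algebra.trdeg ℂ M = n) {Q : Place ℂ M} (hQ : Divisorial n Q)
    {ω : (Fin n → Derivation ℂ M M) → M} (hω : IsPluri m ω) (hlog : LogAt Q ω)
    {G : Fin n → Derivation ℂ M M} (hG : ∀ i, DerReg Q (G i)) : Ge Q (-(m : ℤ)) (ω G) := by
  classical
  obtain ⟨y, E, i0, hl⟩ := exists_loc hn hQ
  have h1 := hlog _ (fun i => hl.log i)
  rw [pluri_diag hω, prod_lc] at h1
  have h2 : Ge Q 0 (y i0 ^ m * ω E) := h1
  have h3 : Ge Q (-(m : ℤ)) (ω E) := by
    rcases h2 with h | h
    · exact Or.inl ((mul_eq_zero.1 h).resolve_left (pow_ne_zero _ hl.ne))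
    · by_cases h0 : ω E = 0
      · exact Or.inl h0
      · right
        rw [Q.ord_mul (pow_ne_zero _ hl.ne) h0, Q.ord_pow, hl.unif] at h
        linarith
  rw [pluri_coord hl.bas hl.dual hω G]
  have h4 : Ge Q 0 ((Matrix.of fun i j => G i (y j) : Matrix (Fin n) (Fin n) M).det ^ m) := by
    have h5 : Ge Q 0 (Matrix.of fun i j => G i (y j) : Matrix (Fin n) (Fin n) M).det :=
      ge_det Q _ fun a b => by
        rw [Matrix.of_apply]
        exact hG a _ (hl.reg b)
    have h6 := h5.pow m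
    rwa [mul_zero] at h6
  have h5 := h4.mul h3
  rwa [zero_add] at h5

section

variable {K M E C : Type} [Field K] [Field M] [Field E] [Field C] [Algebra ℂ K] [Algebra ℂ M]
  [Algebra ℂ E] [Algebra ℂ C] [Algebra E K] [Algebra C K] [Algebra M K] [Algebra E M]
  [IsScalarTower ℂ E K] [IsScalarTower ℂ C K] [IsScalarTower ℂ M K] [IsScalarTower ℂ E M]
  [IsScalarTower E M K]
  [IsFF ℂ C] [FiniteDimensional M K] [Algebra.EssFiniteType ℂ M] [Algebra.EssFiniteType ℂ K]
  [Algebra.EssFiniteType ℂ E] {d : ℕ}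

theorem trForm_smul {n : ℕ} (y : Fin n → K) (c g : K) (D : Fin n → Derivation ℂ K K) :
    trForm y (c * g) D = c * trForm y g D := by
  unfold trForm
  ring

/-- the trace of the product form -/
noncomputable def tr (x : Fin d → E) (t φ : C) (G' : Fin (d + 1) → Derivation ℂ K K) : M :=
  Algebra.trace M K (trForm (zz K x t) (algebraMap C K φ) G')

theorem tr_mul (c : E) (x : Fin d → E) (t φ : C) (G' : Fin (d + 1) → Derivation ℂ K K) :
    Algebra.trace M K (trForm (zz K x t) (algebraMap E K c * algebraMap C K φ) G') =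
      algebraMap E M c * tr x t φ G' := by
  rw [trForm_smul, IsScalarTower.algebraMap_apply E M K, ← Algebra.smul_def, map_smul, smul_eq_mul]
  rfl

/-- change of coordinates -/
theorem tr_change {x x' : Fin d → E} {E' : Fin d → Derivation ℂ E E}
    (hx' : IsTranscendenceBasis ℂ x') (hE' : ∀ i j, E' i (x' j) = if i = j then 1 else 0)
    (t φ : C) (G' : Fin (d + 1) → Derivation ℂ K K) :
    (tr x t φ G' : M) = algebraMap E M (Matrix.of fun i j => E' i (x j)).det * tr x' t φ G' := by
  unfold tr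
  rw [form_change_x hx' hE', IsScalarTower.algebraMap_apply E M K, ← Algebra.smul_def, map_smul,
    smul_eq_mul]

variable {t : C} (ht : Transcendental ℂ t) {D0 : Derivation ℂ C C} (hD0 : D0 t = 1)
  {B : Set (Place ℂ C)} {φ : C} (hφ : φ ∈ HL D0 B)
  (hn : Algebra.trdeg ℂ M = (d + 1 : ℕ)) {y : Fin (d + 1) → M}
  {G : Fin (d + 1) → Derivation ℂ M M} (hy : IsTranscendenceBasis ℂ y)
  (hG : ∀ i j, G i (y j) = if i = j then 1 else 0) {G' : Fin (d + 1) → Derivation ℂ K K}
  (hG' : ∀ i f, G' i (algebraMap M K f) = algebraMap M K (G i f))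

include ht hD0 hφ hn hy hG hG' in
/-- **The trace at a place which is not trivial on the base.** -/
theorem ge_nontriv {Q : Place ℂ M} (hQ : Divisorial (d + 1) Q) {v : Place ℂ E} {r : ℕ}
    (hv : Over Q v r) {x : Fin d → E} {EE : Fin d → Derivation ℂ E E} {i0 : Fin d}
    (hl : Loc v x EE i0) {F : Fin (d + 1) → Derivation ℂ M M} (hF : ∀ i, DerReg Q (F i)) :
    Ge Q ((r : ℤ) - 1) (trForm y (tr x t φ G') F) := by
  have hlog : LogAt Q (trForm y (Algebra.trace M K
      (trForm (zz K x t) (algebraMap E K (x i0)⁻¹ * algebraMap C K φ) G'))) :=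
    Pool.Agent.R882.LT.trForm_logAt hn hy hG hG' _ (trForm_pluri _ _) Q hQ fun Q1 e1 hQ1 =>
      form_logx ht hD0 hφ (fun b => by
        rw [IsScalarTower.algebraMap_apply E M K]
        exact hQ1.reg.2 (hv.reg.2 (hl.reg b))) fun b => by
          have h1 := hl.bas.1.transcendental b
          intro h0
          rw [h0] at h1
          exact h1 isAlgebraic_zero
  rw [tr_mul, show algebraMap E M (x i0)⁻¹ * tr x t φ G' = algebraMap E M (x i0)⁻¹ *
    (tr x t φ G' : M) from rfl] at hlog
  have h1 := ge_of_log hn hQ (m := 1) (trForm_pluri y _) hlog hF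
  rw [trForm_smul] at h1
  have h2 : Ge Q (r : ℤ) (algebraMap E M (x i0)) := by
    right
    rw [hv.2, hl.unif, mul_one]
  have h3 := h2.mul h1
  rw [← mul_assoc, ← map_mul, mul_inv_cancel₀ hl.ne, map_one, one_mul] at h3
  exact h3.mono (by push_cast; linarith)

include ht hD0 hφ hn hy hG hG' in
/-- **The trace at a place which is trivial on the base.** -/
theorem ge_triv {Q : Place ℂ M} (hQ : Divisorial (d + 1) Q)
    (htriv : ∀ z : E, Q.ord (algebraMap E M z) = 0) {x : Fin d → E} (hx : ∀ b, x b ≠ 0)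
    {F : Fin (d + 1) → Derivation ℂ M M} (hF : ∀ i, DerReg Q (F i)) :
    Ge Q (-1) (trForm y (tr x t φ G') F) := by
  have hlog : LogAt Q (trForm y (tr x t φ G')) :=
    Pool.Agent.R882.LT.trForm_logAt hn hy hG hG' _ (trForm_pluri _ _) Q hQ fun Q1 e1 hQ1 =>
      form_log ht hD0 hφ (fun b => by
        rw [IsScalarTower.algebraMap_apply E M K]
        exact hQ1.reg.2 (Or.inr (htriv _).ge)) hx
  have h1 := ge_of_log hn hQ (m := 1) (trForm_pluri y _) hlog hF
  exact h1.mono (by norm_num)

include ht hD0 hφ hn hy hG hG' in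
/-- **The trace at a place which is trivial on the base**, outside the boundary. -/
theorem ge_triv_reg {Q : Place ℂ M} (hQ : Divisorial (d + 1) Q)
    (htriv : ∀ z : E, Q.ord (algebraMap E M z) = 0)
    (hB : ∀ (Q1 : Place ℂ K) (e1 : ℕ), Over Q1 Q e1 → ∀ p ∈ B, ∀ e : ℕ, ¬ Over Q1 p e)
    {x : Fin d → E}
    {F : Fin (d + 1) → Derivation ℂ M M} (hF : ∀ i, DerReg Q (F i)) :
    Ge Q 0 (trForm y (tr x t φ G') F) :=
  Pool.Agent.R882.LT.trForm_regAt hn hy hG hG' _ (trForm_pluri _ _) Q hQ (fun Q1 e1 hQ1 =>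
      form_reg ht hD0 hφ (hB Q1 e1 hQ1) (fun b => by
        rw [IsScalarTower.algebraMap_apply E M K]
        exact hQ1.reg.2 (Or.inr (htriv _).ge))) F hF

end

end Pool.Agent.U192.TF
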