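import Pool.Agent.U192.TF.Lem

/-!
Images of the products with curves: the genus of the fibres.
-/

set_option autoImplicit false
set_option linter.overlappingInstances false
set_option linter.unusedSectionVars false
set_option maxHeartbeats 4000000
set_option synthInstance.maxHeartbeats 400000

open FF Pool.Agent.W602.GT Pool.Agent.W603.LV Pool.Agent.W619.PQ Pool.Agent.Y172
open Pool.Agent.N145.PL (HL bd)
open Pool.Agent.N145.SX (BdX zz GeoFib)
open Pool.Agent.Y184.NT (trForm trForm_pluri)
open Pool.Agent.W619.PL (IsA1Uniruled)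
open Pool.Agent.Y174 (PairSec PairKod PairNum)
open Pool.Agent.W619.TW (HasIndep NumLe)

namespace Pool.Agent.U192.TF

open Pool.Agent.U192.NM (pow_form pow_form_pluri)
open Pool.Agent.U192.PE (RegS kod_of_regS indep_of_norm)

section

variable {K : Type} [Field K] [Algebra ℂ K] [Algebra.EssFiniteType ℂ K] {d : ℕ}
  {E E1 C : IntermediateField ℂ K} [IsFF ℂ C]
  {L : Type} [Field L] [Algebra ℂ L] [Algebra L K] [IsScalarTower ℂ L K] [FiniteDimensional L K]

/-- **Images of the products with curves**: the fibres have genus at most one, or the Kodaira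
dimension is larger. -/
theorem two (hle : E ≤ E1) (hsup : E1 ⊔ C = ⊤) (hE : Algebra.trdeg ℂ E = d)
    (hE1 : Algebra.trdeg ℂ E1 = d) (hK : Algebra.trdeg ℂ K = (d + 1 : ℕ)) {T : Finset E}
    (hT : ∀ z ∈ IntermediateField.adjoin L (E : Set K),
      z ∈ Submodule.span L {z : K | ∃ t : E, (t = 1 ∨ t ∈ T) ∧ (t : K) = z}) :
    IsA1Uniruled ℂ L (d + 1) (fun _ => False) ∨ NumLe ℂ L (d + 1) (fun _ => False) d ∨
    (∀ m a : ℕ, 1 ≤ m → ∀ θ : Fin (a + 1) → (Fin d → Derivation ℂ E E) → E,
      (∀ l, IsPluri m (θ l)) →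
      (∀ l, ∀ v : Place ℂ E, Divisorial d v → ∀ G : Fin d → Derivation ℂ E E,
        (∀ i, DerReg v (G i)) → θ l G = 0 ∨ ∀ t : E, (t = 1 ∨ t ∈ T) → t ≠ 0 →
          (0 : ℤ) ≤ v.ord (θ l G) + 2 * m * v.ord t) →
      ∀ G0 : Fin d → Derivation ℂ E E, θ 0 G0 ≠ 0 →
      (AlgebraicIndependent ℂ fun j : Fin a => θ j.succ G0 / θ 0 G0) →
      KodGe ℂ L (d + 1) (fun _ => False) (a + 1)) := by
  classical
  by_cases hA : IsA1Uniruled ℂ L (d + 1) (fun _ => False)
  · exact Or.inl hA
  right
  have hno : ∀ Q : Place ℂ K, ¬ BdX (K := K) (E := E) (C := C) (fun _ => False)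
      (∅ : Set (Place ℂ C)) Q := by
    rintro Q (⟨_, _, h3, -⟩ | ⟨_, h3, -⟩)
    · exact h3
    · exact h3
  obtain ⟨hna, -, hcl⟩ := Pool.Agent.N145.SX.closed K d E1 C hsup hE1 hK
  have hL : Algebra.trdeg ℂ L = (d + 1 : ℕ) := Pool.Agent.Y184.NT.trdeg_below (K := K) hK
  have hessL : Algebra.EssFiniteType ℂ L := Pool.Agent.TH466.QG.ess_below (K := K)
  have hessE : Algebra.EssFiniteType ℂ E := Pool.Agent.N999.SX.ess_any E
  have hessE1 : Algebra.EssFiniteType ℂ E1 := Pool.Agent.N999.SX.ess_any E1
  -- the fields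
  let iEE1 : Algebra E E1 := (IntermediateField.inclusion hle).toRingHom.toAlgebra
  have tE1 : IsScalarTower ℂ E E1 := IsScalarTower.of_algebraMap_eq fun _ => rfl
  let N := IntermediateField.adjoin L (E1 : Set K)
  let M := IntermediateField.adjoin L (E : Set K)
  have hMN : M ≤ N := IntermediateField.adjoin.mono L _ _ hle
  let iMN : Algebra M N := (IntermediateField.inclusion hMN).toRingHom.toAlgebra
  let iEM : Algebra E M := ({ toFun := fun u => ⟨(u : K), IntermediateField.subset_adjoin L _ u.2⟩
                              map_one' := rfl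
                              map_mul' := fun _ _ => rfl
                              map_zero' := rfl
                              map_add' := fun _ _ => rfl } : E →+* M).toAlgebra
  let iEN : Algebra E N := ({ toFun := fun u => ⟨(u : K), hMN
                                (IntermediateField.subset_adjoin L _ u.2)⟩
                              map_one' := rfl
                              map_mul' := fun _ _ => rfl
                              map_zero' := rfl
                              map_add' := fun _ _ => rfl } : E →+* N).toAlgebra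
  have s1 : IsScalarTower ℂ M N := IsScalarTower.of_algebraMap_eq fun _ => rfl
  have s2 : IsScalarTower ℂ N K := IsScalarTower.of_algebraMap_eq fun _ => rfl
  have s3 : IsScalarTower L M N := IsScalarTower.of_algebraMap_eq fun _ => rfl
  have s4 : IsScalarTower ℂ E M := IsScalarTower.of_algebraMap_eq fun _ => rfl
  have s5 : IsScalarTower ℂ E N := IsScalarTower.of_algebraMap_eq fun _ => rfl
  have s6 : IsScalarTower E M N := IsScalarTower.of_algebraMap_eq fun _ => rfl
  have s7 : IsScalarTower E N K := IsScalarTower.of_algebraMap_eq fun _ => rfl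
  have hfMN : FiniteDimensional M N := FiniteDimensional.right L M N
  have hessN : Algebra.EssFiniteType ℂ N := Pool.Agent.TH466.QG.ess_below (K := K)
  -- the coordinates on the variety
  obtain ⟨x, Ex, hx, hEx⟩ := exists_crd hE
  have halgE : Algebra.IsAlgebraic E E1 := by
    rw [← trdeg_eq_zero_iff]
    have h1 := _root_.trdeg_add_eq ℂ E (A := E1)
    rw [hE1, hE] at h1
    have h2 : (d : Cardinal) + Algebra.trdeg E E1 = d + 0 := by rw [h1, add_zero]
    exact Cardinal.eq_of_add_eq_add_left h2 (Cardinal.natCast_lt_aleph0)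
  have hx1 : IsTranscendenceBasis ℂ (fun j => algebraMap E E1 (x j)) := hx.algebraMap_comp
  -- the coordinate on the curve
  obtain ⟨t, ht⟩ := IsFF.exists_transcendental (k := ℂ) (K := C)
  obtain ⟨D0, hD0⟩ := Pool.Agent.N145.PC.exists_D ht
  -- the frames
  obtain ⟨y, G, hy, hG⟩ := exists_crd hL
  have hnN : Algebra.trdeg ℂ N = (d + 1 : ℕ) := Pool.Agent.Y172.trdeg_up (K := L) hL
  choose GN hGN using fun i => exists_lift (L := N) hL (G i)
  choose G' hG' using fun i => exists_lift (L := K) hnN (GN i)
  have hGK : ∀ i f, G' i (algebraMap L K f) = algebraMap L K (G i f) := by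
    intro i f
    rw [IsScalarTower.algebraMap_apply L N K, hG', hGN, ← IsScalarTower.algebraMap_apply L N K]
  have hyN : IsTranscendenceBasis ℂ (fun j => algebraMap L N (y j)) := hy.algebraMap_comp
  have hyK : IsTranscendenceBasis ℂ (fun j => algebraMap L K (y j)) := hy.algebraMap_comp
  have hGNd := lift_dual hG hGN
  have hGKd := lift_dual hG hGK
  obtain ⟨h, hdef⟩ : ∃ h, h = (Matrix.of fun i j => G' i (zz K x t j) :
    Matrix (Fin (d + 1)) (Fin (d + 1)) K).det := ⟨_, rfl⟩
  have hval : ∀ g : K, trForm (zz K x t) g G' = h * g := by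
    intro g
    rw [trForm, hdef]
  -- the trace is not zero
  obtain ⟨φ, hφ, hne⟩ : ∃ φ ∈ HL D0 (∅ : Set (Place ℂ C)), Algebra.trace N K (h * (φ : K)) ≠ 0 := by
    by_contra hcon
    push Not at hcon
    refine hA (Pool.Agent.N145.SX.erase K d E1 C hsup hE1 hK _ hx1 t ht D0 hD0 (fun _ => False) ∅
      (fun P hP => absurd hP (Set.notMem_empty P)) L (fun _ => False)
      (fun P Q e h1 h2 => absurd h2 id) h
      (fun M' g D D' hD => ?_) hcon)
    have h1 := Pool.Agent.Y172.pluri_coord hyK hGKd (trForm_pluri (zz K x t) g) D'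
    rw [hval, pow_one] at h1
    refine ⟨(Matrix.of fun i j => D i (algebraMap L M' (y j)) :
      Matrix (Fin (d + 1)) (Fin (d + 1)) M').det, ?_⟩
    refine h1.trans ?_
    rw [RingHom.map_det]
    congr 2
    ext i j
    rw [RingHom.mapMatrix_apply, Matrix.map_apply, Matrix.of_apply, Matrix.of_apply]
    rw [← hD]
    rfl
  obtain ⟨τ, hτ⟩ : ∃ τ : N, τ = tr x t φ G' := ⟨_, rfl⟩
  have hτ0 : τ ≠ 0 := by
    have h1 : τ = Algebra.trace N K (h * (φ : K)) := by
      rw [hτ, ← hval]
      rfl
    rw [h1]
    exact hne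
  -- the bases
  obtain ⟨S0, hS0⟩ : ∃ S0 : Set M, S0 = {z | ∃ t : E, (t = 1 ∨ t ∈ T) ∧ algebraMap E M t = z} :=
    ⟨_, rfl⟩
  have hspan0 : ⊤ ≤ Submodule.span L S0 := by
    intro z _
    have h1 := hT (z : K) z.2
    have h2 : {z : K | ∃ t : E, (t = 1 ∨ t ∈ T) ∧ (t : K) = z} = M.val.toLinearMap '' S0 := by
      ext w
      rw [hS0]
      constructor
      · rintro ⟨t, ht, rfl⟩
        exact ⟨algebraMap E M t, ⟨t, ht, rfl⟩, rfl⟩
      · rintro ⟨_, ⟨t, ht, rfl⟩, rfl⟩
        exact ⟨t, ht, rfl⟩
    rw [h2, ← Submodule.map_span] at h1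
    obtain ⟨w, hw, hwz⟩ := h1
    have h3 : w = z := Subtype.ext hwz
    rwa [← h3]
  obtain ⟨q, f, hf⟩ := Pool.Agent.U192.PB.exists_basis_mem (K := L) (L := M) S0 hspan0
  let S1 : Subfield N := E1.toSubfield.comap (algebraMap N K)
  have hadj : IntermediateField.adjoin M (S1 : Set N) = ⊤ := by
    rw [eq_top_iff]
    rintro ⟨z, hz⟩ -
    refine IntermediateField.adjoin_induction L
      (p := fun z hz => (⟨z, hz⟩ : N) ∈ IntermediateField.adjoin M (S1 : Set N)) ?_ ?_ ?_ ?_ ?_ hz
    · intro z hz
      exact IntermediateField.subset_adjoin M _ hz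
    · intro u
      exact (IntermediateField.adjoin M (S1 : Set N)).algebraMap_mem (algebraMap L M u)
    · intro x y _ _ hx hy
      exact add_mem hx hy
    · intro x _ hx
      exact inv_mem hx
    · intro x y _ _ hx hy
      exact mul_mem hx hy
  obtain ⟨q', b, hb⟩ := Pool.Agent.U192.PB.exists_basis_mem (K := M) (L := N) (S1 : Set N)
    (span_subfield S1 hadj)
  have hb' : ∀ j, IsIntegral E (b j) := by
    intro j
    have h1 : ((b j : N) : K) ∈ E1 := hb j
    have h2 : IsIntegral E (⟨_, h1⟩ : E1) := (halgE.isAlgebraic _).isIntegral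
    have tEK : IsScalarTower E E1 K := IsScalarTower.of_algebraMap_eq fun _ => rfl
    have h3 : IsIntegral E (algebraMap E1 K (⟨_, h1⟩ : E1)) := h2.algebraMap
    exact (isIntegral_algebraMap_iff (algebraMap N K).injective).1 h3
  have hf' : ∀ j, ∃ g : E, g ≠ 0 ∧ (g = 1 ∨ g ∈ T) ∧ algebraMap E M g = f j := by
    intro j
    have h1 := hf j
    rw [hS0] at h1
    obtain ⟨g, hg, hgf⟩ := h1
    refine ⟨g, ?_, hg, hgf⟩
    rintro rfl
    rw [map_zero] at hgf
    exact f.ne_zero j hgf.symm
  -- the dichotomy
  have hyKN : IsTranscendenceBasis ℂ (fun j => algebraMap N K (algebraMap L N (y j))) :=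
    hyN.algebraMap_comp
  have hGKN := lift_dual hGNd hG'
  by_cases hprop : ∀ ψ ∈ HL D0 (∅ : Set (Place ℂ C)), ∃ c : E1,
      ((tr x t ψ G' : N) : K) = (c : K) * (τ : K)
  · left
    let E1N : IntermediateField ℂ N := E1.comap (IsScalarTower.toAlgHom ℂ N K)
    have hE1N : ∀ z : N, z ∈ E1N ↔ (z : K) ∈ E1 := fun z => Iff.rfl
    have hmemN : ∀ z ∈ E1, ∃ n : N, algebraMap N K n = z := fun z hz =>
      ⟨⟨z, IntermediateField.subset_adjoin L _ hz⟩, rfl⟩
    have hgeo : GeoFib N E1N := by
      refine Pool.Agent.N145.SX.cov K d E1 C hsup hE1 hK _ hx1 t ht D0 hD0 N h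
        (fun M' g D D' hD => ?_) (τ : K) (fun ψ hψ => ?_) E1N (fun z hz => ?_) (fun z hz => ?_)
      · have h1 := Pool.Agent.Y172.pluri_coord hyKN hGKN (trForm_pluri (zz K x t) g) D'
        rw [hval, pow_one] at h1
        refine ⟨(Matrix.of fun i j => D i (algebraMap N M' (algebraMap L N (y j))) :
          Matrix (Fin (d + 1)) (Fin (d + 1)) M').det, ?_⟩
        refine h1.trans ?_
        rw [RingHom.map_det]
        congr 2
        ext i j
        rw [RingHom.mapMatrix_apply, Matrix.map_apply, Matrix.of_apply, Matrix.of_apply]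
        rw [← hD]
        rfl
      · obtain ⟨c, hc⟩ := hprop ψ hψ
        refine ⟨c, ?_⟩
        rw [← hc, trace_adj hmemN, ← hval]
        rfl
      · have h1 : (z : K) ∈ E1 := hz
        exact isAlgebraic_algebraMap (⟨_, h1⟩ : E1)
      · obtain ⟨n, hn⟩ := hmemN z hz
        have h1 : n ∈ E1N := by
          rw [hE1N]
          have h2 : (n : K) = z := hn
          rw [h2]
          exact hz
        have h2 := isAlgebraic_algebraMap (R := E1N) (A := K) (⟨n, h1⟩ : E1N)
        have h3 : algebraMap E1N K (⟨n, h1⟩ : E1N) = z := hn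
        rwa [h3] at h2
    have hclN : ∀ z : N, IsAlgebraic E1N z → z ∈ E1N := by
      intro z hz
      rw [hE1N]
      refine hcl _ ?_
      exact IsAlgebraic.ringHom_of_comp_eq (R := E1N) (A := N) (S := E1) (B := K)
        ({ toFun := fun w => ⟨((w : N) : K), w.2⟩
           map_one' := rfl
           map_mul' := fun _ _ => rfl
           map_zero' := rfl
           map_add' := fun _ _ => rfl } : E1N →+* E1) (algebraMap N K) hz
        (RingHom.injective _) (RingHom.ext fun _ => rfl)
    have htrN : Algebra.trdeg ℂ E1N = d := by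
      let iA : Algebra E1N E1 := ({ toFun := fun w => ⟨((w : N) : K), w.2⟩
                                    map_one' := rfl
                                    map_mul' := fun _ _ => rfl
                                    map_zero' := rfl
                                    map_add' := fun _ _ => rfl } : E1N →+* E1).toAlgebra
      have t1 : IsScalarTower ℂ E1N E1 := IsScalarTower.of_algebraMap_eq fun _ => rfl
      have hfin : FiniteDimensional E1N E1 := by
        refine Module.Finite.of_surjective (Algebra.linearMap E1N E1) fun z => ?_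
        obtain ⟨n, hn⟩ := hmemN z z.2
        have h1 : n ∈ E1N := by
          rw [hE1N]
          have h2 : (n : K) = z := hn
          rw [h2]
          exact z.2
        exact ⟨⟨n, h1⟩, Subtype.ext hn⟩
      exact Pool.Agent.Y184.NT.trdeg_below (K := E1) hE1
    exact numLe_below hL (numLe_geoFib htrN hnN hclN hgeo)
  · right
    push Not at hprop
    obtain ⟨ψ, hψ, hψc⟩ := hprop
    obtain ⟨τ2, hτ2⟩ : ∃ τ2 : N, τ2 = tr x t ψ G' := ⟨_, rfl⟩
    have hu : Transcendental E (τ2 / τ) := by
      intro halg
      have h1 : IsAlgebraic E1 (((τ2 / τ : N)) : K) := by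
        exact IsAlgebraic.ringHom_of_comp_eq (R := E) (A := N) (S := E1) (B := K)
          (algebraMap E E1) (algebraMap N K) halg (algebraMap E E1).injective
          (RingHom.ext fun _ => rfl)
      have h2 := hcl _ h1
      refine hψc ⟨_, h2⟩ ?_
      rw [← hτ2]
      have h3 : (τ : K) ≠ 0 := fun h0 => hτ0 (Subtype.ext h0)
      have h4 : (((τ2 / τ : N)) : K) = (τ2 : K) / (τ : K) := rfl
      change (τ2 : K) = (((τ2 / τ : N)) : K) * (τ : K)
      rw [h4, div_mul_cancel₀ _ h3]
    intro m a hm θ hθ hpos G0 hG0 hind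
    have hc : ∀ (c : N), pow_form m (fun j => algebraMap L N (y j)) c GN = c := by
      intro c
      rw [pow_form, Pool.Agent.U192.NM.det_one' hGNd, one_pow, one_mul]
    have hreg : ∀ (φ' : Fin m → C), (∀ k, φ' k ∈ HL D0 (∅ : Set (Place ℂ C))) → ∀ l,
        RegS (fun P : Place ℂ L => if (fun _ => False) P then (1 : ℝ) else 0) M (d + 1) m {1}
          (fun j => algebraMap M N (f j))
          (pow_form m (fun j => algebraMap L N (y j))
            ((∏ k, tr x t (φ' k) G') * algebraMap E N (θ l Ex))) := by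
      intro φ' hφ' l
      refine regS_prod (C := C) (K := K) (BX := fun _ => False) (B := ∅) (BL := fun _ => False) hE
        hnN b hb' hf' (fun P Q e hQ v r hv hBv => hBv)
        (fun P Q e hQ hBP Q1 e1 hQ1 p hp e2 hQ2 => hp) (hθ l) (fun v hv G hG => ?_) ht hD0 hφ' hx
        hEx hyN hGNd hG'
      rcases hpos l v hv G hG with h | h
      · exact Or.inl h
      · refine Or.inr fun t ht ht0 => ?_
        rw [if_neg id]
        exact h t ht ht0
    have hθE : θ 0 Ex ≠ 0 := by
      intro h0
      apply hG0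
      rw [pluri_coord hx hEx (hθ 0) G0, h0, mul_zero]
    have hr : ∀ j : Fin a, θ j.succ G0 / θ 0 G0 = θ j.succ Ex / θ 0 Ex := by
      intro j
      have h1 := pluri_coord hx hEx (hθ 0) G0
      have h2 := pluri_coord hx hEx (hθ j.succ) G0
      have h3 : (Matrix.of fun i j => G0 i (x j) : Matrix (Fin d) (Fin d) E).det ^ m ≠ 0 := by
        intro h0
        apply hG0
        rw [h1, h0, zero_mul]
      rw [h1, h2]
      field_simp
    -- the products of the traces
    let k0 : Fin m := ⟨0, hm⟩
    obtain ⟨c1, hc1⟩ : ∃ c1 : N, c1 = ∏ _k : Fin m, τ := ⟨_, rfl⟩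
    obtain ⟨c2, hc2⟩ : ∃ c2 : N, c2 = ∏ k : Fin m, (if k = k0 then τ2 else τ) := ⟨_, rfl⟩
    have hc10 : c1 ≠ 0 := by
      rw [hc1]
      exact Finset.prod_ne_zero_iff.2 fun _ _ => hτ0
    have hc12 : c2 = c1 * (τ2 / τ) := by
      rw [hc1, hc2, ← Finset.mul_prod_erase Finset.univ _ (Finset.mem_univ k0),
        ← Finset.mul_prod_erase Finset.univ (fun _ => τ) (Finset.mem_univ k0), if_pos rfl]
      have h1 : ∏ k ∈ Finset.univ.erase k0, (if k = k0 then τ2 else τ) =
          ∏ k ∈ Finset.univ.erase k0, τ := by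
        refine Finset.prod_congr rfl fun k hk => ?_
        rw [if_neg (Finset.ne_of_mem_erase hk)]
      rw [h1]
      field_simp
    have hR1 : ∀ l, RegS (fun P : Place ℂ L => if (fun _ => False) P then (1 : ℝ) else 0) M
        (d + 1) m {1} (fun j => algebraMap M N (f j))
        (pow_form m (fun j => algebraMap L N (y j)) (c1 * algebraMap E N (θ l Ex))) := by
      intro l
      have h1 := hreg (fun _ => φ) (fun _ => hφ) l
      rw [hc1, hτ]
      exact h1
    have hR2 : ∀ l, RegS (fun P : Place ℂ L => if (fun _ => False) P then (1 : ℝ) else 0) M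
        (d + 1) m {1} (fun j => algebraMap M N (f j))
        (pow_form m (fun j => algebraMap L N (y j)) (c2 * algebraMap E N (θ l Ex))) := by
      intro l
      have h1 := hreg (fun k => if k = k0 then ψ else φ) (fun k => by
        beta_reduce
        split_ifs
        · exact hψ
        · exact hφ) l
      have h2 : ∏ k : Fin m, (tr x t (if k = k0 then ψ else φ) G' : N) = c2 := by
        rw [hc2]
        refine Finset.prod_congr rfl fun k _ => ?_
        split_ifs
        · rw [hτ2]
        · rw [hτ]
      rw [h2] at h1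
      exact h1
    obtain ⟨Θ, hΘ1, hΘ2⟩ : ∃ Θ : Fin (a + 1 + 1) → (Fin (d + 1) → Derivation ℂ N N) → N,
        (∀ l : Fin (a + 1), Θ l.castSucc =
          pow_form m (fun j => algebraMap L N (y j)) (c1 * algebraMap E N (θ l Ex))) ∧
        Θ (Fin.last (a + 1)) =
          pow_form m (fun j => algebraMap L N (y j)) (c2 * algebraMap E N (θ 0 Ex)) := by
      refine ⟨Fin.snoc (α := fun _ => (Fin (d + 1) → Derivation ℂ N N) → N) (fun l =>
        pow_form m (fun j => algebraMap L N (y j)) (c1 * algebraMap E N (θ l Ex)))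
        (pow_form m (fun j => algebraMap L N (y j)) (c2 * algebraMap E N (θ 0 Ex))),
        fun l => ?_, ?_⟩
      · rw [Fin.snoc_castSucc]
      · rw [Fin.snoc_last]
    have h00 : Θ 0 = pow_form m (fun j => algebraMap L N (y j)) (c1 * algebraMap E N (θ 0 Ex)) :=
      hΘ1 0
    refine kodGe_of_pair_log hL (kod_of_regS (K := L) (M := M) (L := N) f hm hnN
      (θ := Θ) (fun l => ?_) (fun l => ?_) (D0 := GN) ?_ ?_)
    · induction l using Fin.lastCases with
      | last =>
        rw [hΘ2]
        exact pow_form_pluri _ _ _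
      | cast l =>
        rw [hΘ1]
        exact pow_form_pluri _ _ _
    · induction l using Fin.lastCases with
      | last =>
        rw [hΘ2]
        exact hR2 0
      | cast l =>
        rw [hΘ1]
        exact hR1 l
    · rw [h00, hc]
      refine mul_ne_zero hc10 ?_
      rwa [Ne, map_eq_zero]
    · have hE0 : algebraMap E N (θ 0 Ex) ≠ 0 := by rwa [Ne, map_eq_zero]
      have h1 : (fun j : Fin (a + 1) => Θ j.succ GN / Θ 0 GN) =
          Fin.snoc (α := fun _ => N) (fun j : Fin a => algebraMap E N (θ j.succ G0 / θ 0 G0))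
            (τ2 / τ) := by
        funext j
        rw [h00, hc]
        induction j using Fin.lastCases with
        | last =>
          rw [Fin.snoc_last, Fin.succ_last, hΘ2, hc, hc12]
          field_simp
        | cast j =>
          rw [Fin.snoc_castSucc, Fin.succ_castSucc, hΘ1, hc, mul_div_mul_left _ _ hc10, hr, map_div₀]
      rw [h1]
      exact indep_snoc hind hu

end

end Pool.Agent.U192.TF
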